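import Pool.Agent.H13.CA.Grp

/-!
# The group of points of a commutative formal group law with values in a power series ring

Infrastructure for the growth chapter (helper32): `F = X + Y + X Y W`, the formal inverse,
`AddCommGroup (F.Point σ)`, evaluation, reduction, the defect `D f = f (F (x, y)) - f x - f y`.
-/

open PowerSeries

namespace Pool.Agent.H32.CG

open Pool.Agent.H13.CA

variable {R S : Type*} [CommRing R] [CommRing S]

/-! ### `F = X + Y + X Y W` -/

private theorem coeff_X0 (φ : MvPowerSeries (Fin 2) R) (n : ℕ) :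
    PowerSeries.coeff n (MvPowerSeries.subst ![(PowerSeries.X : R⟦X⟧), 0] φ : R⟦X⟧) =
      MvPowerSeries.coeff (Finsupp.single 0 n : Fin 2 →₀ ℕ) φ := by
  have hs : MvPowerSeries.HasSubst ![(PowerSeries.X : R⟦X⟧), 0] := MvPowerSeries.HasSubst.X_zero
  rw [PowerSeries.coeff, MvPowerSeries.coeff_subst hs,
    finsum_eq_single _ (Finsupp.single 0 n)]
  · rw [Finsupp.prod_single_index (by simp)]
    have : MvPowerSeries.coeff (Finsupp.single () n) ((![(PowerSeries.X : R⟦X⟧), 0] 0) ^ n) =
        (1 : R) := by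
      have := PowerSeries.coeff_X_pow_self (R := R) n
      exact this
    rw [this, smul_eq_mul, mul_one]
  · intro d hd
    by_cases h1 : d 1 = 0
    · have h2 : (d.prod fun s e => ![(PowerSeries.X : R⟦X⟧), 0] s ^ e) = (X : R⟦X⟧) ^ (d 0) := by
        rw [Finsupp.prod_fintype _ _ (fun _ => pow_zero _)]
        simp [h1]
      rw [h2]
      have h3 : d 0 ≠ n := by
        intro h3
        apply hd
        ext i
        fin_cases i
        · simp [h3]
        · simp [h1]
      have h4 : MvPowerSeries.coeff (Finsupp.single () n) ((X : R⟦X⟧) ^ (d 0)) = (0 : R) := by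
        have := PowerSeries.coeff_X_pow (R := R) n (d 0)
        rw [if_neg (fun h => h3 h.symm)] at this
        exact this
      rw [h4, smul_zero]
    · have h2 : (d.prod fun s e => ![(PowerSeries.X : R⟦X⟧), 0] s ^ e) = 0 := by
        rw [Finsupp.prod_fintype _ _ (fun _ => pow_zero _)]
        simp [h1]
      rw [h2, map_zero, smul_zero]

private theorem coeff_X1 (φ : MvPowerSeries (Fin 2) R) (n : ℕ) :
    PowerSeries.coeff n (MvPowerSeries.subst ![0, (PowerSeries.X : R⟦X⟧)] φ : R⟦X⟧) =
      MvPowerSeries.coeff (Finsupp.single 1 n : Fin 2 →₀ ℕ) φ := by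
  have hs : MvPowerSeries.HasSubst ![0, (PowerSeries.X : R⟦X⟧)] := MvPowerSeries.HasSubst.zero_X
  rw [PowerSeries.coeff, MvPowerSeries.coeff_subst hs,
    finsum_eq_single _ (Finsupp.single 1 n)]
  · rw [Finsupp.prod_single_index (by simp)]
    have : MvPowerSeries.coeff (Finsupp.single () n) ((![0, (PowerSeries.X : R⟦X⟧)] 1) ^ n) =
        (1 : R) := by
      have := PowerSeries.coeff_X_pow_self (R := R) n
      exact this
    rw [this, smul_eq_mul, mul_one]
  · intro d hd
    by_cases h1 : d 0 = 0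
    · have h2 : (d.prod fun s e => ![0, (PowerSeries.X : R⟦X⟧)] s ^ e) = (X : R⟦X⟧) ^ (d 1) := by
        rw [Finsupp.prod_fintype _ _ (fun _ => pow_zero _)]
        simp [h1]
      rw [h2]
      have h3 : d 1 ≠ n := by
        intro h3
        apply hd
        ext i
        fin_cases i
        · simp [h1]
        · simp [h3]
      have h4 : MvPowerSeries.coeff (Finsupp.single () n) ((X : R⟦X⟧) ^ (d 1)) = (0 : R) := by
        have := PowerSeries.coeff_X_pow (R := R) n (d 1)
        rw [if_neg (fun h => h3 h.symm)] at this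
        exact this
      rw [h4, smul_zero]
    · have h2 : (d.prod fun s e => ![0, (PowerSeries.X : R⟦X⟧)] s ^ e) = 0 := by
        rw [Finsupp.prod_fintype _ _ (fun _ => pow_zero _)]
        simp [h1]
      rw [h2, map_zero, smul_zero]

/-- `F (X, Y) = X + Y + X Y W (X, Y)` -/
theorem exists_W (F : FormalGroup R) : ∃ W : MvPowerSeries (Fin 2) R,
    F.toPowerSeries = MvPowerSeries.X 0 + MvPowerSeries.X 1 +
      MvPowerSeries.X 0 * MvPowerSeries.X 1 * W := by
  have c0 : ∀ n, MvPowerSeries.coeff (Finsupp.single 0 n : Fin 2 →₀ ℕ) F.toPowerSeries =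
      PowerSeries.coeff n (X : R⟦X⟧) := fun n => by
    rw [← coeff_X0]; exact congrArg (PowerSeries.coeff n) F.Xzero_eq_X
  have c1 : ∀ n, MvPowerSeries.coeff (Finsupp.single 1 n : Fin 2 →₀ ℕ) F.toPowerSeries =
      PowerSeries.coeff n (X : R⟦X⟧) := fun n => by
    rw [← coeff_X1]; exact congrArg (PowerSeries.coeff n) F.zeroX_eq_X
  have e0 : (MvPowerSeries.X 0 : MvPowerSeries (Fin 2) R) ∣
      F.toPowerSeries - MvPowerSeries.X 0 - MvPowerSeries.X 1 := by
    rw [MvPowerSeries.X_dvd_iff]
    intro d hd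
    have h1 : d = Finsupp.single 1 (d 1) := by
      ext i; fin_cases i
      · simp [hd]
      · simp
    rw [h1, map_sub, map_sub, c1, MvPowerSeries.coeff_X, MvPowerSeries.coeff_X,
      PowerSeries.coeff_X]
    have ne : ¬ (Finsupp.single 1 1 : Fin 2 →₀ ℕ) = Finsupp.single 0 1 := by
      intro e
      have := DFunLike.congr_fun e 0
      simp at this
    by_cases h : d 1 = 1
    · rw [h, if_neg ne]; simp
    · rw [if_neg h]
      have a1 : ¬ (Finsupp.single 1 (d 1) : Fin 2 →₀ ℕ) = Finsupp.single 0 1 := by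
        intro e
        have := DFunLike.congr_fun e 0
        simp at this
      have a2 : ¬ (Finsupp.single 1 (d 1) : Fin 2 →₀ ℕ) = Finsupp.single 1 1 := by
        intro e
        have := DFunLike.congr_fun e 1
        simp at this
        exact h this
      rw [if_neg a1, if_neg a2]; simp
  obtain ⟨ψ, hψ⟩ := e0
  have e1 : (MvPowerSeries.X 1 : MvPowerSeries (Fin 2) R) ∣ ψ := by
    rw [MvPowerSeries.X_dvd_iff]
    intro d hd
    have h1 : d + Finsupp.single 0 1 = Finsupp.single 0 (d 0 + 1) := by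
      ext i; fin_cases i
      · simp
      · simp [hd]
    have h2 := congrArg (MvPowerSeries.coeff (d + Finsupp.single 0 1)) hψ
    rw [add_comm d, MvPowerSeries.X, MvPowerSeries.coeff_add_monomial_mul, one_mul, add_comm, h1,
      map_sub, map_sub, c0, ← MvPowerSeries.X, MvPowerSeries.coeff_X, MvPowerSeries.coeff_X,
      PowerSeries.coeff_X] at h2
    rw [← h2]
    have ne : ¬ (Finsupp.single 0 1 : Fin 2 →₀ ℕ) = Finsupp.single 1 1 := by
      intro e
      have := DFunLike.congr_fun e 0
      simp at this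
    by_cases h : d 0 = 0
    · rw [h, zero_add, if_neg ne]; simp
    · have a0 : ¬ (d 0 + 1 = 1) := by omega
      have a1 : ¬ (Finsupp.single 0 (d 0 + 1) : Fin 2 →₀ ℕ) = Finsupp.single 0 1 := by
        intro e
        have := DFunLike.congr_fun e 0
        simp at this
        exact h this
      have a2 : ¬ (Finsupp.single 0 (d 0 + 1) : Fin 2 →₀ ℕ) = Finsupp.single 1 1 := by
        intro e
        have := DFunLike.congr_fun e 0
        simp at this
      rw [if_neg a0, if_neg a1, if_neg a2]; simp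
  obtain ⟨W, hW⟩ := e1
  refine ⟨W, ?_⟩
  rw [hW] at hψ
  have : F.toPowerSeries = (F.toPowerSeries - MvPowerSeries.X 0 - MvPowerSeries.X 1) +
    MvPowerSeries.X 0 + MvPowerSeries.X 1 := by ring
  rw [this, hψ]; ring

/-- `a + b = a + b + a b w` for points -/
theorem add_val (F : FormalGroup R) {σ : Type*} : ∃ W : MvPowerSeries (Fin 2) R,
    ∀ a b : MvPowerSeries σ R, PowerSeries.HasSubst a → PowerSeries.HasSubst b →
      MvPowerSeries.subst ![a, b] F.toPowerSeries =
        a + b + a * b * MvPowerSeries.subst ![a, b] W := by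
  obtain ⟨W, hW⟩ := exists_W F
  refine ⟨W, fun a b ha hb => ?_⟩
  have hs := hasSubst_pair ha hb
  rw [hW, MvPowerSeries.subst_add hs, MvPowerSeries.subst_add hs, MvPowerSeries.subst_mul hs,
    MvPowerSeries.subst_mul hs, MvPowerSeries.subst_X hs, MvPowerSeries.subst_X hs]
  rfl

/-! ### congruences for substitutions -/

section congr

variable {σ τ : Type*}

private theorem prod_sub_mem {T : Type*} [CommRing T] (J : Ideal T) {a b : σ → T}
    (h : ∀ i, a i - b i ∈ J) (d : σ →₀ ℕ) :
    (d.prod fun s e => a s ^ e) - (d.prod fun s e => b s ^ e) ∈ J := by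
  rw [← Ideal.Quotient.eq]
  simp only [Finsupp.prod, map_prod, map_pow]
  refine Finset.prod_congr rfl fun i _ => ?_
  rw [Ideal.Quotient.eq.2 (h i)]

/-- coefficientwise congruence of substitutions -/
theorem coeff_subst_sub_mem {a b : σ → MvPowerSeries τ R} (ha : MvPowerSeries.HasSubst a)
    (hb : MvPowerSeries.HasSubst b) (J : Ideal (MvPowerSeries τ R)) (h : ∀ i, a i - b i ∈ J)
    (I : Ideal R) (e : τ →₀ ℕ) (hI : ∀ s ∈ J, MvPowerSeries.coeff e s ∈ I)
    (φ : MvPowerSeries σ R) :
    MvPowerSeries.coeff e (MvPowerSeries.subst a φ) -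
      MvPowerSeries.coeff e (MvPowerSeries.subst b φ) ∈ I := by
  rw [MvPowerSeries.coeff_subst ha, MvPowerSeries.coeff_subst hb, ← finsum_sub_distrib
    (MvPowerSeries.coeff_subst_finite ha φ e) (MvPowerSeries.coeff_subst_finite hb φ e)]
  refine finsum_induction (fun x => x ∈ I) I.zero_mem (fun x y => I.add_mem) ?_
  intro d
  rw [← smul_sub, ← map_sub, smul_eq_mul]
  exact I.mul_mem_left _ (hI _ (prod_sub_mem J h d))

theorem coeff_psubst_sub_mem {a b : MvPowerSeries τ R} (ha : PowerSeries.HasSubst a)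
    (hb : PowerSeries.HasSubst b) (J : Ideal (MvPowerSeries τ R)) (h : a - b ∈ J)
    (I : Ideal R) (e : τ →₀ ℕ) (hI : ∀ s ∈ J, MvPowerSeries.coeff e s ∈ I)
    (f : R⟦X⟧) :
    MvPowerSeries.coeff e (PowerSeries.subst a f) -
      MvPowerSeries.coeff e (PowerSeries.subst b f) ∈ I := by
  rw [PowerSeries.subst_def, PowerSeries.subst_def]
  exact coeff_subst_sub_mem ha.const hb.const J (fun _ => h) I e hI f

/-- congruence modulo `X ^ n` -/
theorem X_pow_dvd_subst_sub {a b : σ → R⟦X⟧} (ha : MvPowerSeries.HasSubst a)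
    (hb : MvPowerSeries.HasSubst b) (n : ℕ) (h : ∀ i, (X : R⟦X⟧) ^ n ∣ a i - b i)
    (φ : MvPowerSeries σ R) :
    (X : R⟦X⟧) ^ n ∣ (MvPowerSeries.subst a φ - MvPowerSeries.subst b φ : R⟦X⟧) := by
  rw [PowerSeries.X_pow_dvd_iff]
  intro m hm
  rw [map_sub]
  have := coeff_subst_sub_mem ha hb (Ideal.span {(X : R⟦X⟧) ^ n})
    (fun i => Ideal.mem_span_singleton.2 (h i)) (⊥ : Ideal R) (Finsupp.single () m)
    (fun s hs => by
      have := (PowerSeries.X_pow_dvd_iff.1 (Ideal.mem_span_singleton.1 hs)) m hm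
      exact this) φ
  exact this

end congr

/-! ### the formal inverse -/

private theorem fixed_point (Φ : R⟦X⟧ → R⟦X⟧) (h0 : ∀ y, constantCoeff (Φ y) = 0)
    (h : ∀ n y z, constantCoeff y = 0 → constantCoeff z = 0 → (X : R⟦X⟧) ^ n ∣ y - z →
      (X : R⟦X⟧) ^ (n + 1) ∣ Φ y - Φ z) :
    ∃ y, constantCoeff y = 0 ∧ Φ y = y := by
  let y : ℕ → R⟦X⟧ := fun n => Φ^[n] 0
  have ys : ∀ n, y (n + 1) = Φ (y n) := fun n => Function.iterate_succ_apply' Φ n 0
  have y0 : ∀ n, constantCoeff (y n) = 0 := by
    intro n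
    cases n with
    | zero => exact map_zero _
    | succ n => rw [ys]; exact h0 _
  have hy : ∀ n, (X : R⟦X⟧) ^ (n + 1) ∣ y (n + 1) - y n := by
    intro n
    induction n with
    | zero =>
      rw [zero_add, pow_one, PowerSeries.X_dvd_iff, map_sub, y0, y0, sub_zero]
    | succ n ih =>
      have := h (n + 1) _ _ (y0 _) (y0 _) ih
      rwa [← ys, ← ys] at this
  have hy2 : ∀ n m, n ≤ m → (X : R⟦X⟧) ^ (n + 1) ∣ y m - y n := by
    intro n m hnm
    induction m, hnm using Nat.le_induction with
    | base => rw [sub_self]; exact dvd_zero _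
    | succ m hm ih =>
      have : y (m + 1) - y n = (y (m + 1) - y m) + (y m - y n) := by ring
      rw [this]
      exact dvd_add ((pow_dvd_pow _ (by omega)).trans (hy m)) ih
  let ι : R⟦X⟧ := PowerSeries.mk fun n => coeff n (y n)
  have hι : ∀ n, (X : R⟦X⟧) ^ (n + 1) ∣ ι - y n := by
    intro n
    rw [PowerSeries.X_pow_dvd_iff]
    intro m hm
    rw [map_sub, PowerSeries.coeff_mk]
    have := (PowerSeries.X_pow_dvd_iff.1 (hy2 m n (by omega))) m (by omega)
    rw [map_sub] at this
    rw [← neg_sub, this, neg_zero]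
  have ι0 : constantCoeff ι = 0 := by
    have := hι 0
    rw [zero_add, pow_one, PowerSeries.X_dvd_iff, map_sub, y0, sub_zero] at this
    exact this
  refine ⟨ι, ι0, ?_⟩
  ext n
  have h1 := h (n + 1) _ _ ι0 (y0 n) (hι n)
  rw [← ys] at h1
  have h2 := hι (n + 1)
  have h3 : Φ ι - ι = (Φ ι - y (n + 1)) - (ι - y (n + 1)) := by ring
  have h4 : (X : R⟦X⟧) ^ (n + 1 + 1) ∣ Φ ι - ι := by rw [h3]; exact dvd_sub h1 h2
  have h5 := (PowerSeries.X_pow_dvd_iff.1 h4) n (by omega)
  rw [map_sub] at h5
  exact sub_eq_zero.1 h5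

/-- the formal inverse `F (X, ι X) = 0` -/
theorem exists_inv (F : FormalGroup R) : ∃ ι : R⟦X⟧, constantCoeff ι = 0 ∧
    MvPowerSeries.subst ![(X : R⟦X⟧), ι] F.toPowerSeries = (0 : R⟦X⟧) := by
  obtain ⟨W, hW⟩ := add_val F (σ := Unit)
  let W' : R⟦X⟧ → R⟦X⟧ := fun y => MvPowerSeries.subst ![(X : R⟦X⟧), y] W
  obtain ⟨ι, h0, h⟩ := fixed_point (fun y => - X - X * y * W' y)
    (fun y => by simp) (by
      intro n y z hy hz hyz
      have h1 : (X : R⟦X⟧) ^ n ∣ W' y - W' z := by
        refine X_pow_dvd_subst_sub (hasSubst_pair PowerSeries.HasSubst.X' (hs_zero hy))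
          (hasSubst_pair PowerSeries.HasSubst.X' (hs_zero hz)) n ?_ W
        intro i
        fin_cases i
        · exact ⟨0, by simp⟩
        · exact hyz
      obtain ⟨a, ha⟩ := hyz
      obtain ⟨b, hb⟩ := h1
      have e1 : W' y = W' z + X ^ n * b := by rw [← hb]; ring
      have e2 : y = z + X ^ n * a := by rw [← ha]; ring
      refine ⟨- (a * W' y + z * b), ?_⟩
      have : (-X - X * y * W' y - (-X - X * z * W' z) : R⟦X⟧) =
        - X * ((y - z) * W' y + z * (W' y - W' z)) := by ring
      rw [this, ha, hb]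
      ring)
  refine ⟨ι, h0, ?_⟩
  rw [hW X ι PowerSeries.HasSubst.X' (hs_zero h0)]
  have h2 : ι = - X - X * ι * W' ι := h.symm
  change X + ι + X * ι * W' ι = 0
  linear_combination h2

/-! ### the group of points -/

section group

variable {σ τ : Type*}

theorem pt_ext {F : FormalGroup R} {a b : F.Point σ} (h : a.val = b.val) : a = b := Subtype.ext h

theorem hs_subst' {a : MvPowerSeries σ R} (ha : PowerSeries.HasSubst a) {f : R⟦X⟧}
    (hf : PowerSeries.HasSubst f) : PowerSeries.HasSubst (PowerSeries.subst a f) := by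
  rw [← PowerSeries.coe_substAlgHom ha]
  exact PowerSeries.HasSubst.comp hf ha

/-- the group of points of a commutative formal group law -/
noncomputable instance instACG (F : FormalGroup R) [F.IsComm] : AddCommGroup (F.Point σ) :=
  { (inferInstance : AddCommMonoid (F.Point σ)) with
    neg := fun a => ⟨PowerSeries.subst a.val (exists_inv F).choose,
      hs_subst a.prop (exists_inv F).choose_spec.1⟩
    zsmul := @zsmulRec _ _ _ ⟨fun a => ⟨PowerSeries.subst a.val (exists_inv F).choose,
      hs_subst a.prop (exists_inv F).choose_spec.1⟩⟩ (nsmulRec)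
    neg_add_cancel := fun a => by
      rw [add_comm]
      apply Subtype.ext
      have h := (exists_inv F).choose_spec.2
      have h1 := congrArg (PowerSeries.subst a.val) h
      rw [subst_pair PowerSeries.HasSubst.X' (hs_zero (exists_inv F).choose_spec.1) a.prop,
        PowerSeries.subst_X a.prop] at h1
      have h2 : PowerSeries.subst a.val (0 : R⟦X⟧) = 0 := by
        rw [← PowerSeries.coe_substAlgHom a.prop, map_zero]
      rw [h2] at h1
      exact h1 }

/-- evaluation `f ↦ f (c)`, a homomorphism -/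
noncomputable def ev (F : FormalGroup R) [F.IsComm] (c : MvPowerSeries τ R)
    (hc : PowerSeries.HasSubst c) : F.Point Unit →+ F.Point τ where
  toFun f := ⟨PowerSeries.subst c (f.val : R⟦X⟧), hs_subst' hc f.prop⟩
  map_zero' := by
    apply Subtype.ext
    change PowerSeries.subst c (0 : R⟦X⟧) = 0
    rw [← PowerSeries.coe_substAlgHom hc, map_zero]
  map_add' a b := Subtype.ext (subst_pair a.prop b.prop hc F.toPowerSeries)

theorem ev_val (F : FormalGroup R) [F.IsComm] {c : MvPowerSeries τ R}
    (hc : PowerSeries.HasSubst c) (f : F.Point Unit) :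
    (ev F c hc f).val = PowerSeries.subst c (f.val : R⟦X⟧) := rfl

theorem nsmul_val (F : FormalGroup R) [F.IsComm] (n : ℕ) (a : F.Point σ) :
    (n • a).val = PowerSeries.subst a.val (mulSer F n) := by
  induction n with
  | zero =>
    rw [zero_nsmul]
    change 0 = PowerSeries.subst a.val (0 : R⟦X⟧)
    rw [← PowerSeries.coe_substAlgHom a.prop, map_zero]
  | succ n ih =>
    rw [succ_nsmul]
    change MvPowerSeries.subst ![(n • a).val, a.val] F.toPowerSeries =
      PowerSeries.subst a.val (MvPowerSeries.subst ![mulSer F n, (PowerSeries.X : R⟦X⟧)]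
        F.toPowerSeries : R⟦X⟧)
    rw [subst_pair (hs_zero (cc_mulSer F n)) PowerSeries.HasSubst.X' a.prop, ih,
      PowerSeries.subst_X a.prop]

instance IsComm_map (F : FormalGroup R) [F.IsComm] (φ : R →+* S) : (F.map φ).IsComm := by
  constructor
  change MvPowerSeries.map φ F.toPowerSeries = MvPowerSeries.subst _
    (MvPowerSeries.map φ F.toPowerSeries)
  have h := FormalGroup.IsComm.comm (F := F)
  have h1 := congrArg (MvPowerSeries.map φ) h
  refine h1.trans ?_
  rw [map_pair (PowerSeries.HasSubst.X 1) (PowerSeries.HasSubst.X 0), MvPowerSeries.map_X,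
    MvPowerSeries.map_X]

/-- reduction of points -/
noncomputable def rd (F : FormalGroup R) [F.IsComm] (φ : R →+* S) :
    F.Point σ →+ (F.map φ).Point σ where
  toFun a := ⟨MvPowerSeries.map φ a.val, by
    have h : IsNilpotent (MvPowerSeries.constantCoeff a.val) := a.prop
    change IsNilpotent (MvPowerSeries.constantCoeff (MvPowerSeries.map φ a.val))
    rw [MvPowerSeries.constantCoeff_map]
    exact h.map φ⟩
  map_zero' := Subtype.ext (map_zero _)
  map_add' a b := Subtype.ext (map_pair a.prop b.prop φ F.toPowerSeries)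

theorem rd_val (F : FormalGroup R) [F.IsComm] (φ : R →+* S)
    (a : F.Point σ) : (rd F φ a).val = MvPowerSeries.map φ a.val := rfl

/-- the defect `f (F (x, y)) - f x - f y`, a homomorphism in `f` -/
noncomputable def D (F : FormalGroup R) [F.IsComm] : F.Point Unit →+ F.Point (Fin 2) :=
  ev F F.toPowerSeries (hs_F F) - ev F (MvPowerSeries.X 0) (PowerSeries.HasSubst.X 0) -
    ev F (MvPowerSeries.X 1) (PowerSeries.HasSubst.X 1)

theorem D_apply (F : FormalGroup R) [F.IsComm] (f : F.Point Unit) :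
    D F f = ev F F.toPowerSeries (hs_F F) f - ev F (MvPowerSeries.X 0) (PowerSeries.HasSubst.X 0) f -
    ev F (MvPowerSeries.X 1) (PowerSeries.HasSubst.X 1) f := rfl

theorem D_rd (F : FormalGroup R) [F.IsComm] (φ : R →+* S)
    (f : F.Point Unit) : D (F.map φ) (rd F φ f) = rd F φ (D F f) := by
  have key : ∀ (c : MvPowerSeries (Fin 2) R) (hc : PowerSeries.HasSubst c)
      (c' : MvPowerSeries (Fin 2) S) (hc' : PowerSeries.HasSubst c')
      (_ : MvPowerSeries.map φ c = c'),
      ev (F.map φ) c' hc' (rd F φ f) = rd F φ (ev F c hc f) := by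
    intro c hc c' hc' h
    subst h
    apply Subtype.ext
    exact (PowerSeries.map_subst hc (h := φ) (f.val : R⟦X⟧)).symm
  rw [D_apply, D_apply, map_sub, map_sub, key F.toPowerSeries (hs_F F) (F.map φ).toPowerSeries
    (hs_F (F.map φ)) rfl,
    key _ _ _ _ (MvPowerSeries.map_X φ 0), key _ _ _ _ (MvPowerSeries.map_X φ 1)]

theorem isHom_iff_D (F : FormalGroup R) [F.IsComm] (f : F.Point Unit)
    (h0 : constantCoeff (f.val : R⟦X⟧) = 0) : IsHom F F (f.val : R⟦X⟧) ↔ D F f = 0 := by
  rw [D_apply, sub_sub, sub_eq_zero]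
  constructor
  · intro h
    exact Subtype.ext h.2
  · intro h
    exact ⟨h0, congrArg Subtype.val h⟩

end group

end Pool.Agent.H32.CG
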