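import Pool.Agent.H22.CG.Apx

/-!
# An automorphism `φ ≡ id mod t ^ M` with a lifting `f` of `θ` gives `θ ∈ EM F M`
-/

open PowerSeries

namespace Pool.Agent.H32.CG

open Pool.Agent.H13.CA Pool.Agent.H22.CG

variable {k : Type*} [Field k]

/-- automorphisms preserve the maximal ideal -/
theorem aut_X (φ : k⟦X⟧ ≃ₐ[k] k⟦X⟧) : (X : k⟦X⟧) ∣ φ X := by
  rw [PowerSeries.X_dvd_iff]
  by_contra h
  have h1 : IsUnit (φ X) := PowerSeries.isUnit_iff_constantCoeff.2 (isUnit_iff_ne_zero.2 h)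
  have h2 : IsUnit (X : k⟦X⟧) := by
    have := h1.map (φ.symm : k⟦X⟧ →+* k⟦X⟧)
    simpa using this
  have h3 := PowerSeries.isUnit_iff_constantCoeff.1 h2
  simp at h3

/-- `φ ≡ id mod t ^ M` -/
theorem aut_congr (φ : k⟦X⟧ ≃ₐ[k] k⟦X⟧) {M : ℕ} (hφ : (X : k⟦X⟧) ^ M ∣ φ X - X) (a : k⟦X⟧) :
    (X : k⟦X⟧) ^ M ∣ φ a - a := by
  have h1 := PowerSeries.eq_X_pow_mul_shift_add_trunc M a
  set b : k⟦X⟧ := PowerSeries.mk fun i => coeff (i + M) a with hb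
  set P : Polynomial k := trunc M a with hP
  have hX : (X : k⟦X⟧) ^ M ∣ φ X ^ M := pow_dvd_pow_of_dvd (aut_X φ) M
  have hp : ∀ P : Polynomial k, (X : k⟦X⟧) ^ M ∣ φ (P : k⟦X⟧) - (P : k⟦X⟧) := by
    intro P
    induction P using Polynomial.induction_on' with
    | add P Q h1 h2 =>
      rw [Polynomial.coe_add, map_add, add_sub_add_comm]
      exact Dvd.dvd.add h1 h2
    | monomial n c =>
      rw [← Polynomial.C_mul_X_pow_eq_monomial, Polynomial.coe_mul, Polynomial.coe_pow,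
        Polynomial.coe_X, Polynomial.coe_C, map_mul, map_pow]
      have h3 : φ (C c) = C c := φ.commutes c
      rw [h3, ← mul_sub]
      exact ((hφ.trans (sub_dvd_pow_sub_pow _ _ n))).mul_left _
  have h2 : φ a - a = (φ X ^ M * φ b - X ^ M * b) + (φ (P : k⟦X⟧) - (P : k⟦X⟧)) := by
    have h3 : φ a = φ X ^ M * φ b + φ (P : k⟦X⟧) := by
      rw [← map_pow, ← map_mul, ← map_add]; exact congrArg φ h1
    rw [h3]
    linear_combination -h1
  rw [h2]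
  exact Dvd.dvd.add (dvd_sub (hX.mul_right _) (Dvd.intro _ rfl)) (hp P)

theorem mem_of_lift (F : FormalGroup k⟦X⟧) [F.IsComm]
    {φ : k⟦X⟧ ≃ₐ[k] k⟦X⟧} {f : PowerSeries k⟦X⟧}
    (hf : IsHom F (F.map (φ : k⟦X⟧ →+* k⟦X⟧)) f) {θ : EndF (spc F)} (hθ : rd f = θ.s) {M : ℕ}
    (hφ : (X : k⟦X⟧) ^ M ∣ φ X - X) : θ ∈ EM F M := by
  refine ⟨f, (apx_iff F M f hf.1).2 ?_, hθ⟩
  set π := Ideal.Quotient.mk (Ideal.span {(X : k⟦X⟧) ^ M}) with hπ
  have h1 := hf.map π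
  rw [fmap_map] at h1
  have h2 : π.comp (φ : k⟦X⟧ →+* k⟦X⟧) = π := by
    ext a
    change π (φ a) = π a
    rw [hπ, Ideal.Quotient.eq, Ideal.mem_span_singleton]
    exact aut_congr φ hφ a
  rwa [h2] at h1

end Pool.Agent.H32.CG
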