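import Pool.Agent.H32.CG.Frb

/-!
# The division step, for points

`F` over `A = k⟦t⟧`, `[p]_F = V (x ^ q)`, `q = p ^ h`, `v = V'(0) = t ^ e v'`, `v'` a unit.
-/

open PowerSeries

namespace Pool.Agent.H32.CG

open Pool.Agent.H13.CA

/-! ### coefficients of an approximate endomorphism below `q` -/

section coef

variable {R : Type*} [CommRing R]

/-- `g^q = g_q (x^q)` -/
theorem pow_q (p : ℕ) [Fact p.Prime] [CharP R p] (g : R⟦X⟧) (h : ℕ) :
    g ^ p ^ h = PowerSeries.subst (X ^ p ^ h : R⟦X⟧)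
      (PowerSeries.map (iterateFrobenius R p h) g) := by
  have hp : p ≠ 0 := (Fact.out : p.Prime).ne_zero
  have h2 := MvPowerSeries.map_iterateFrobenius_expand (σ := Unit) (R := R) p hp g h
  have h3 : (PowerSeries.map (iterateFrobenius R p h) (PowerSeries.expand (p ^ h)
      (pow_ne_zero h hp) g) : R⟦X⟧) = g ^ p ^ h := h2
  rw [← h3, PowerSeries.map_expand, PowerSeries.expand_apply]

/-- powers of a series without constant term -/
theorem coeff_pow_lt {V : R⟦X⟧} (hV : constantCoeff V = 0) {j i : ℕ} (h : i < j) :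
    coeff i (V ^ j) = 0 :=
  PowerSeries.X_pow_dvd_iff.1 (pow_dvd_pow_of_dvd (PowerSeries.X_dvd_iff.2 hV) j) i h

theorem coeff_pow_self {V : R⟦X⟧} (hV : constantCoeff V = 0) (i : ℕ) :
    coeff i (V ^ i) = (coeff 1 V) ^ i := by
  obtain ⟨W, hW⟩ := PowerSeries.X_dvd_iff.2 hV
  have h1 : coeff 1 V = constantCoeff W := by
    have := PowerSeries.coeff_succ_X_mul 0 W
    rw [zero_add] at this
    rw [hW, this, PowerSeries.coeff_zero_eq_constantCoeff_apply]
  have h2 := PowerSeries.coeff_X_pow_mul (W ^ i) i 0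
  rw [zero_add, ← mul_pow, ← hW, PowerSeries.coeff_zero_eq_constantCoeff_apply] at h2
  rw [h2, map_pow, h1]

theorem coeff_comp {V : R⟦X⟧} (hV : constantCoeff V = 0) (g : R⟦X⟧) (i : ℕ) :
    coeff i (PowerSeries.subst V g : R⟦X⟧) =
      ∑ j ∈ Finset.range (i + 1), coeff j g * coeff i (V ^ j) := by
  rw [PowerSeries.coeff_subst' (hs_zero hV)]
  rw [finsum_eq_sum_of_support_subset (s := Finset.range (i + 1))]
  · rfl
  · intro j hj
    simp only [Function.mem_support, ne_eq] at hj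
    simp only [Finset.coe_range, Set.mem_Iio]
    by_contra hc
    apply hj
    rw [coeff_pow_lt hV (by omega), smul_zero]

/-- the abstract induction: if the coefficients of `g ∘ V` below `q` are divisible by `r`, then
`r ∣ v ^ (i * i) a_i` -/
theorem coeff_ind {V : R⟦X⟧} (hV : constantCoeff V = 0) (g : R⟦X⟧) (r : R) (q : ℕ)
    (h : ∀ i, i < q → r ∣ coeff i (PowerSeries.subst V g : R⟦X⟧)) :
    ∀ i, i < q → r ∣ coeff 1 V ^ (i * i) * coeff i g := by
  intro i
  induction i using Nat.strong_induction_on with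
  | _ i ih =>
    intro hi
    rcases Nat.eq_zero_or_pos i with rfl | hi0
    · have h1 := h 0 hi
      rw [coeff_comp hV] at h1
      simpa using h1
    have h1 := h i hi
    rw [coeff_comp hV, Finset.sum_range_succ, coeff_pow_self hV] at h1
    have h2 : i * i = i * i - i + i := by
      have : i ≤ i * i := Nat.le_mul_of_pos_left i hi0
      omega
    have h3 : coeff 1 V ^ (i * i) * coeff i g = coeff 1 V ^ (i * i - i) *
        (∑ x ∈ Finset.range i, coeff x g * coeff i (V ^ x) + coeff i g * coeff 1 V ^ i) -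
        ∑ x ∈ Finset.range i, (coeff 1 V ^ (i * i - i) * coeff x g) * coeff i (V ^ x) := by
      conv_lhs => rw [h2, pow_add]
      rw [mul_add, Finset.mul_sum]
      simp only [mul_assoc]
      ring
    rw [h3]
    refine dvd_sub (h1.mul_left _) (Finset.dvd_sum fun j hj => Dvd.dvd.mul_right ?_ _)
    have hj' := Finset.mem_range.1 hj
    have h4 : j * j ≤ i * i - i := by
      have : j * j + i ≤ i * i := by nlinarith
      omega
    have h5 : i * i - i = (i * i - i - j * j) + j * j := by omega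
    rw [h5, pow_add, mul_assoc]
    exact (ih j hj' (by omega)).mul_left _

end coef

/-! ### over `k⟦t⟧` -/

section kt

variable {k : Type*} [Field k] (F : FormalGroup k⟦X⟧) [F.IsComm]

omit [F.IsComm] in
theorem pt_cc (g : F.Point Unit) : constantCoeff (g.val : PowerSeries k⟦X⟧) = 0 := by
  have h : IsNilpotent (MvPowerSeries.constantCoeff g.val) := g.prop
  exact h.eq_zero

/-- an approximate endomorphism commutes approximately with `[n]` -/
theorem comm_n (n N : ℕ) (g : F.Point Unit) (hg : MvPowerSeries.C ((X : k⟦X⟧) ^ N) ∣ (D F g).val) :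
    (MvPowerSeries.C ((X : k⟦X⟧) ^ N) : MvPowerSeries Unit k⟦X⟧) ∣
      PowerSeries.subst (mulSer F n) (g.val : PowerSeries k⟦X⟧) -
        PowerSeries.subst (g.val : PowerSeries k⟦X⟧) (mulSer F n) := by
  set I : Ideal k⟦X⟧ := Ideal.span {(X : k⟦X⟧) ^ N} with hI
  set π := Ideal.Quotient.mk I with hπ
  have key : ∀ {σ : Type} (s : MvPowerSeries σ k⟦X⟧), MvPowerSeries.C ((X : k⟦X⟧) ^ N) ∣ s ↔
      MvPowerSeries.map π s = 0 := by
    intro σ s
    rw [C_dvd_iff]
    constructor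
    · intro h
      ext e
      rw [MvPowerSeries.coeff_map, map_zero, Ideal.Quotient.eq_zero_iff_mem, hI,
        Ideal.mem_span_singleton]
      exact h e
    · intro h e
      have := congrArg (MvPowerSeries.coeff e) h
      rw [MvPowerSeries.coeff_map, map_zero, Ideal.Quotient.eq_zero_iff_mem, hI,
        Ideal.mem_span_singleton] at this
      exact this
  rw [key] at hg
  have h1 : D (F.map π) (rd F π g) = 0 := by
    rw [D_rd]
    exact pt_ext hg
  have h2 : IsHom (F.map π) (F.map π) ((rd F π g).val : PowerSeries _) :=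
    (isHom_iff_D (F.map π) (rd F π g) (map_hs (pt_cc F g) π)).2 h1
  have h3 := h2.mulSer n
  rw [mulSer_map] at h3
  rw [key]
  change PowerSeries.map π _ = 0
  rw [map_sub, sub_eq_zero, map_subst' (hs_zero (cc_mulSer F n)), map_subst' (hs_zero (pt_cc F g))]
  exact h3

/-- divisibility of the coefficients below `q` of a product -/
theorem coeff_mul_dvd {R : Type*} [CommRing R] {r : R} {f g : R⟦X⟧} {q : ℕ}
    (h : ∀ i, i < q → r ∣ coeff i f) : ∀ i, i < q → r ∣ coeff i (f * g) := by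
  intro i hi
  rw [PowerSeries.coeff_mul]
  refine Finset.dvd_sum fun x hx => Dvd.dvd.mul_right (h _ ?_) _
  have := Finset.HasAntidiagonal.mem_antidiagonal.1 hx
  omega

/-- the coefficients below `q` of an approximate endomorphism are small -/
theorem gcoef (p : ℕ) [Fact p.Prime] [CharP k p] {h e B N : ℕ} {V : PowerSeries k⟦X⟧}
    (hV : constantCoeff V = 0)
    (hFV : mulSer F p = PowerSeries.subst (X ^ p ^ h : PowerSeries k⟦X⟧) V) {v' : k⟦X⟧}
    (hv : coeff 1 V = X ^ e * v') (hv' : constantCoeff v' ≠ 0) (g : F.Point Unit)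
    (hg : MvPowerSeries.C ((X : k⟦X⟧) ^ N) ∣ (D F g).val)
    (hB : ∀ i, i < p ^ h → (X : k⟦X⟧) ^ B ∣ coeff i (g.val : PowerSeries k⟦X⟧))
    (h1 : B + 1 + e * ((p ^ h - 1) * (p ^ h - 1)) ≤ N)
    (h2 : B + 1 + e * ((p ^ h - 1) * (p ^ h - 1)) ≤ p ^ h * B) :
    ∀ i, i < p ^ h → (X : k⟦X⟧) ^ (B + 1) ∣ coeff i (g.val : PowerSeries k⟦X⟧) := by
  have hp : p ≠ 0 := (Fact.out : p.Prime).ne_zero
  have hq : p ^ h ≠ 0 := pow_ne_zero h hp
  have : CharP k⟦X⟧ p := charP_mv (σ := Unit) p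
  set gq : PowerSeries k⟦X⟧ := PowerSeries.map (iterateFrobenius k⟦X⟧ p h)
    (g.val : PowerSeries k⟦X⟧) with hgq
  have hgq0 : constantCoeff gq = 0 := map_hs (pt_cc F g) _
  have hXq : PowerSeries.HasSubst (X ^ p ^ h : PowerSeries k⟦X⟧) := PowerSeries.HasSubst.X_pow hq
  have e1 : PowerSeries.subst (mulSer F p) (g.val : PowerSeries k⟦X⟧) =
      PowerSeries.expand (p ^ h) hq (PowerSeries.subst V (g.val : PowerSeries k⟦X⟧)) := by
    rw [hFV, PowerSeries.expand_apply, PowerSeries.subst_comp_subst_apply (hs_zero hV) hXq]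
  have e2 : PowerSeries.subst (g.val : PowerSeries k⟦X⟧) (mulSer F p) =
      PowerSeries.expand (p ^ h) hq (PowerSeries.subst gq V) := by
    have h3 : (PowerSeries.subst (g.val : PowerSeries k⟦X⟧) (X ^ p ^ h : PowerSeries k⟦X⟧) :
        PowerSeries k⟦X⟧) = PowerSeries.subst (X ^ p ^ h : PowerSeries k⟦X⟧) gq := by
      rw [PowerSeries.subst_pow g.prop, PowerSeries.subst_X g.prop]
      exact pow_q p (g.val : PowerSeries k⟦X⟧) h
    rw [hFV, PowerSeries.expand_apply, PowerSeries.subst_comp_subst_apply hXq g.prop,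
      PowerSeries.subst_comp_subst_apply (hs_zero hgq0) hXq]
    exact congrArg (fun z => PowerSeries.subst z V) h3
  have h3 := comm_n F p N g hg
  rw [e1, e2, ← map_sub, C_dvd_iff'] at h3
  have h4 : ∀ i, (X : k⟦X⟧) ^ N ∣ coeff i (PowerSeries.subst V (g.val : PowerSeries k⟦X⟧) :
      PowerSeries k⟦X⟧) - coeff i (PowerSeries.subst gq V : PowerSeries k⟦X⟧) := by
    intro i
    have := h3 (p ^ h * i)
    rwa [PowerSeries.coeff_expand_mul, map_sub] at this
  have h5 : ∀ i, i < p ^ h → (X : k⟦X⟧) ^ (p ^ h * B) ∣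
      coeff i (PowerSeries.subst gq V : PowerSeries k⟦X⟧) := by
    intro i hi
    rw [coeff_comp hgq0]
    refine Finset.dvd_sum fun j hj => ?_
    rcases Nat.eq_zero_or_pos j with rfl | hj0
    · rw [PowerSeries.coeff_zero_eq_constantCoeff_apply, hV, zero_mul]
      exact dvd_zero _
    · obtain ⟨l, rfl⟩ : ∃ l, j = l + 1 := ⟨j - 1, by omega⟩
      rw [pow_succ']
      refine Dvd.dvd.mul_left (coeff_mul_dvd (q := p ^ h) ?_ i hi) _
      intro a ha
      rw [hgq, PowerSeries.coeff_map, iterateFrobenius_def, mul_comm, pow_mul]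
      exact pow_dvd_pow_of_dvd (hB a ha) _
  set L := B + 1 + e * ((p ^ h - 1) * (p ^ h - 1)) with hL
  have h6 : ∀ i, i < p ^ h → (X : k⟦X⟧) ^ L ∣
      coeff i (PowerSeries.subst V (g.val : PowerSeries k⟦X⟧) : PowerSeries k⟦X⟧) := by
    intro i hi
    have a1 := (pow_dvd_pow (X : k⟦X⟧) h1).trans (h4 i)
    have a2 := (pow_dvd_pow (X : k⟦X⟧) h2).trans (h5 i hi)
    have := Dvd.dvd.add a1 a2
    rwa [sub_add_cancel] at this
  have h7 := coeff_ind hV (g.val : PowerSeries k⟦X⟧) _ (p ^ h) h6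
  intro i hi
  have h8 := h7 i hi
  have hvu : IsUnit v' := PowerSeries.isUnit_iff_constantCoeff.2 (isUnit_iff_ne_zero.2 hv')
  rw [hv, mul_pow, ← pow_mul, mul_assoc] at h8
  have h9 : L = e * (i * i) + (L - e * (i * i)) := by
    have : e * (i * i) ≤ e * ((p ^ h - 1) * (p ^ h - 1)) :=
      Nat.mul_le_mul_left _ (Nat.mul_le_mul (by omega) (by omega))
    omega
  rw [h9, pow_add, mul_dvd_mul_iff_left (pow_ne_zero _ PowerSeries.X_ne_zero),
    (hvu.pow _).dvd_mul_left] at h8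
  refine (pow_dvd_pow _ ?_).trans h8
  have : e * (i * i) ≤ e * ((p ^ h - 1) * (p ^ h - 1)) :=
    Nat.mul_le_mul_left _ (Nat.mul_le_mul (by omega) (by omega))
  omega

omit [F.IsComm] in
private theorem XqV {q : ℕ} (hq : q ≠ 0) {V : PowerSeries k⟦X⟧} (hV : constantCoeff V = 0)
    {n : ℕ} (hFV : mulSer F n = PowerSeries.subst (X ^ q : PowerSeries k⟦X⟧) V) :
    ∃ w : PowerSeries k⟦X⟧, mulSer F n =
      X ^ q * (MvPowerSeries.C (coeff 1 V) + X ^ q * w) := by
  obtain ⟨W, hW⟩ := PowerSeries.X_dvd_iff.2 hV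
  have h1 : coeff 1 V = constantCoeff W := by
    have := PowerSeries.coeff_succ_X_mul 0 W
    rw [zero_add] at this
    rw [hW, this, PowerSeries.coeff_zero_eq_constantCoeff_apply]
  obtain ⟨W', hW'⟩ : ∃ W', W - PowerSeries.C (constantCoeff W) = X * W' :=
    PowerSeries.X_dvd_iff.2 (by rw [map_sub, PowerSeries.constantCoeff_C, sub_self])
  have hs : PowerSeries.HasSubst (X ^ q : PowerSeries k⟦X⟧) := PowerSeries.HasSubst.X_pow hq
  refine ⟨PowerSeries.subst (X ^ q : PowerSeries k⟦X⟧) W', ?_⟩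
  have h2 : V = X * (PowerSeries.C (constantCoeff W) + X * W') := by
    rw [← hW', hW]; ring
  have h3 : (PowerSeries.subst (X ^ q : PowerSeries k⟦X⟧)
      (PowerSeries.C (constantCoeff W) : PowerSeries k⟦X⟧) : PowerSeries k⟦X⟧) =
      MvPowerSeries.C (constantCoeff W) := PowerSeries.subst_C _
  rw [hFV, h1]
  conv_lhs => rw [h2]
  rw [PowerSeries.subst_mul hs, PowerSeries.subst_add hs, PowerSeries.subst_mul hs,
    PowerSeries.subst_X hs, h3]

/-- `[n]` of a point -/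
private theorem nsmul_form {σ : Type*} {q n : ℕ} {v : k⟦X⟧} {w : PowerSeries k⟦X⟧}
    (h : mulSer F n = X ^ q * (MvPowerSeries.C v + X ^ q * w)) (a : F.Point σ) :
    ∃ u : MvPowerSeries σ k⟦X⟧, (n • a).val =
      a.val ^ q * (MvPowerSeries.C v + a.val ^ q * u) := by
  refine ⟨PowerSeries.subst a.val w, ?_⟩
  have hs : PowerSeries.HasSubst a.val := a.prop
  have h3 : (PowerSeries.subst a.val (MvPowerSeries.C v : PowerSeries k⟦X⟧) :
      MvPowerSeries σ k⟦X⟧) = MvPowerSeries.C v := PowerSeries.subst_C _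
  rw [nsmul_val, h, PowerSeries.subst_mul hs, PowerSeries.subst_add hs, PowerSeries.subst_mul hs,
    PowerSeries.subst_pow hs, PowerSeries.subst_X hs, h3]

/-- the constant lift of a series over `k` -/
noncomputable def cst (η : k⟦X⟧) : PowerSeries k⟦X⟧ := PowerSeries.map (C (R := k)) η

theorem map_cst (η : k⟦X⟧) : PowerSeries.map (constantCoeff (R := k)) (cst η) = η := by
  rw [cst, map_map']
  exact map_id' _ (fun x => by simp) η

/-- DIVISION STEP for points -/
theorem div_pt (p : ℕ) [Fact p.Prime] [CharP k p] (hperf : ∀ a : k, ∃ b, b ^ p = a)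
    {h e M N : ℕ} (hh : 1 ≤ h) {V : PowerSeries k⟦X⟧} (hV : constantCoeff V = 0)
    (hFV : mulSer F p = PowerSeries.subst (X ^ p ^ h : PowerSeries k⟦X⟧) V) {v' : k⟦X⟧}
    (hv : coeff 1 V = X ^ e * v') (hv' : constantCoeff v' ≠ 0)
    (hsp : mulSer (F.map (constantCoeff (R := k))) p ≠ 0)
    (hM : 2 * e + 1 ≤ M) (hN : p ^ h * M + e + e * (p ^ h) ^ 2 < N) (f g : F.Point Unit)
    (hf : MvPowerSeries.C ((X : k⟦X⟧) ^ M) ∣ (D F f).val)
    (hg : MvPowerSeries.C ((X : k⟦X⟧) ^ N) ∣ (D F g).val)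
    (hfg : MvPowerSeries.C (X : k⟦X⟧) ∣ (p • f).val - g.val) :
    ∃ f' : F.Point Unit, MvPowerSeries.C ((X : k⟦X⟧) ^ (M + 1)) ∣ (D F f').val ∧
      MvPowerSeries.C (X : k⟦X⟧) ∣ f'.val - f.val := by
  have hp2 := (Fact.out : p.Prime).two_le
  have hq2 : 2 ≤ p ^ h := by
    calc 2 ≤ p := hp2
      _ = p ^ 1 := (pow_one p).symm
      _ ≤ p ^ h := Nat.pow_le_pow_right (by omega) hh
  set q := p ^ h with hq
  have hq0 : q ≠ 0 := by omega
  have hqM : 2 * M ≤ q * M := Nat.mul_le_mul_right _ hq2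
  set B := q * M + e with hB
  have hB1 : 1 ≤ B := by omega
  obtain ⟨w, hw⟩ := XqV F hq0 hV hFV
  -- the defect of `p f`
  obtain ⟨d', hd'⟩ := hf
  obtain ⟨u, hu⟩ := nsmul_form F hw (D F f)
  have E1 : (MvPowerSeries.C ((X : k⟦X⟧) ^ (B + 1)) : MvPowerSeries (Fin 2) k⟦X⟧) ∣
      (D F (p • f)).val - MvPowerSeries.C (X ^ B) * (MvPowerSeries.C v' * d' ^ q) := by
    rw [map_nsmul, hu, hd', hv]
    have e1 : (MvPowerSeries.C ((X : k⟦X⟧) ^ M) * d') ^ q *
        (MvPowerSeries.C (X ^ e * v') + (MvPowerSeries.C ((X : k⟦X⟧) ^ M) * d') ^ q * u) -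
        MvPowerSeries.C (X ^ B) * (MvPowerSeries.C v' * d' ^ q) =
        MvPowerSeries.C ((X : k⟦X⟧) ^ (q * M + q * M)) * (d' ^ q * d' ^ q * u) := by
      rw [hB, mul_pow, CX_pow_mul, CX_pow_mul, map_mul, ← map_pow, ← pow_mul, mul_comm M q]
      ring
    rw [e1]
    exact (CX_pow_dvd (by omega)).mul_right _
  have E2 : MvPowerSeries.C ((X : k⟦X⟧) ^ B) ∣ (D F (p • f)).val := by
    have h1 := (CX_pow_dvd (k := k) (σ := Fin 2) (by omega : B ≤ B + 1)).trans E1
    have h2 : MvPowerSeries.C ((X : k⟦X⟧) ^ B) ∣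
      MvPowerSeries.C (X ^ B) * (MvPowerSeries.C v' * d' ^ q) := Dvd.intro _ rfl
    have h3 := Dvd.dvd.add h1 h2
    rwa [sub_add_cancel] at h3
  have hNB : B + 1 ≤ N := by omega
  have hgB : MvPowerSeries.C ((X : k⟦X⟧) ^ (B + 1)) ∣ (D F g).val := (CX_pow_dvd hNB).trans hg
  set H := p • f - g with hH
  have E3 : MvPowerSeries.C ((X : k⟦X⟧) ^ B) ∣ (D F H).val := by
    rw [hH, map_sub]
    exact dvd_sub_val E2 ((CX_pow_dvd (by omega)).trans hgB)
  have E4 : MvPowerSeries.C ((X : k⟦X⟧) ^ B) ∣ H.val :=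
    uniq F p hsp H (dvd_sub_iff.2 hfg) B E3
  obtain ⟨h', hh'⟩ := E4
  have E5 := D_lead F (M := B + 1) hB1 le_rfl hh'
  have E6 : MvPowerSeries.C ((X : k⟦X⟧) ^ (B + 1)) ∣ (D F H).val - (D F (p • f)).val := by
    rw [← dvd_sub_iff, hH, map_sub, sub_sub_cancel_left]
    exact dvd_neg_val hgB
  have E7 : MvPowerSeries.C (X : k⟦X⟧) ∣ del F h' - MvPowerSeries.C v' * d' ^ q := by
    have h1 := dvd_sub (Dvd.dvd.add E6 E1) E5
    have h2 : (D F H).val - (D F (p • f)).val + ((D F (p • f)).val -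
        MvPowerSeries.C (X ^ B) * (MvPowerSeries.C v' * d' ^ q)) -
        ((D F H).val - MvPowerSeries.C (X ^ B) * del F h') =
        MvPowerSeries.C (X ^ B) * (del F h' - MvPowerSeries.C v' * d' ^ q) := by ring
    rw [h2, CX_pow_mul, pow_one] at h1
    exact (mul_dvd_mul_iff_left (CX_pow_ne B)).1 h1
  -- small coefficients
  have hf0 := pt_cc F f
  obtain ⟨w8, hw8⟩ := add_val' F H g
  have hHg : H + g = p • f := by rw [hH]; exact sub_add_cancel _ _
  rw [hHg] at hw8
  have E8 : ∀ i, i < q → coeff i (H.val + g.val + H.val * g.val * w8 : PowerSeries k⟦X⟧) = 0 := by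
    have h1 : (H.val + g.val + H.val * g.val * w8 : PowerSeries k⟦X⟧) = (p • f).val := hw8.symm
    rw [h1]
    obtain ⟨u', hu'⟩ := nsmul_form F hw f
    rw [hu']
    intro i hi
    have h2 : (X : PowerSeries k⟦X⟧) ^ q ∣ (f.val : PowerSeries k⟦X⟧) ^ q :=
      pow_dvd_pow_of_dvd (PowerSeries.X_dvd_iff.2 hf0) q
    exact PowerSeries.X_pow_dvd_iff.1 (h2.mul_right _) i hi
  set gs : PowerSeries k⟦X⟧ := g.val with hgs
  set Hs : PowerSeries k⟦X⟧ := H.val with hHs
  have hHs' : ∀ i, (X : k⟦X⟧) ^ B ∣ coeff i Hs := by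
    have h1 : (MvPowerSeries.C ((X : k⟦X⟧) ^ B) : MvPowerSeries Unit k⟦X⟧) ∣ Hs := ⟨h', hh'⟩
    exact C_dvd_iff'.1 h1
  have E9 : ∀ i, i < q → (X : k⟦X⟧) ^ B ∣ coeff i gs := by
    intro i hi
    have h1 := E8 i hi
    have h2 : Hs + gs + Hs * gs * w8 = Hs * (1 + gs * w8) + gs := by ring
    rw [h2, map_add] at h1
    have h3 := coeff_mul_dvd (g := 1 + gs * w8) (q := q) (fun i _ => hHs' i) i hi
    rw [eq_neg_of_add_eq_zero_right h1]
    exact h3.neg_right
  have E10 : ∀ i, i < q → (X : k⟦X⟧) ^ (B + 1) ∣ coeff i gs := by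
    obtain ⟨r, hr⟩ : ∃ r, q = r + 1 := ⟨q - 1, by omega⟩
    refine gcoef F p hV hFV hv hv' g hg E9 ?_ ?_
    · rw [← hq, hr, Nat.add_sub_cancel]
      have : e * (r * r) ≤ e * q ^ 2 := Nat.mul_le_mul_left _ (by rw [hr]; nlinarith)
      omega
    · rw [← hq, hr, Nat.add_sub_cancel]
      have h1 : e * r + 1 ≤ B := by
        have : (r + 1) * (2 * e + 1) ≤ q * M := by
          rw [← hr]; exact Nat.mul_le_mul_left _ hM
        nlinarith
      have h2 : r * (e * r + 1) ≤ r * B := Nat.mul_le_mul_left _ h1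
      have h3 : 1 ≤ r := by omega
      nlinarith
  have E11 : ∀ i, i < q → (X : k⟦X⟧) ∣ coeff i (h' : PowerSeries k⟦X⟧) := by
    intro i hi
    have h1 := E8 i hi
    have h2 : Hs + gs + Hs * gs * w8 = gs * (1 + Hs * w8) + Hs := by ring
    rw [h2, map_add] at h1
    have h3 := coeff_mul_dvd (g := 1 + Hs * w8) E10 i hi
    have h4 : (X : k⟦X⟧) ^ (B + 1) ∣ coeff i Hs := by
      rw [eq_neg_of_add_eq_zero_right h1]; exact h3.neg_right
    have h5 : coeff i Hs = X ^ B * coeff i (h' : PowerSeries k⟦X⟧) := by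
      have h6 : Hs = PowerSeries.C ((X : k⟦X⟧) ^ B) * h' := hh'
      rw [h6, PowerSeries.coeff_C_mul]
    rw [h5, pow_succ] at h4
    exact (mul_dvd_mul_iff_left (pow_ne_zero _ PowerSeries.X_ne_zero)).1 h4
  -- roots
  rw [CX_dvd_iff, map_sub, sub_eq_zero, map_del, map_mul, map_pow, MvPowerSeries.map_C] at E7
  obtain ⟨η, hη0, hη⟩ := del_root' p hperf (F.map (constantCoeff (R := k))) h
    (PowerSeries.map (constantCoeff (R := k)) h') (MvPowerSeries.map (constantCoeff (R := k)) d')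
    (constantCoeff v') (isUnit_iff_ne_zero.2 hv') (by
      intro i hi
      rw [PowerSeries.coeff_map, ← PowerSeries.X_dvd_iff]
      exact E11 i hi) E7
  have hcst0 : constantCoeff (cst η) = 0 := map_hs hη0 _
  have hs : PowerSeries.HasSubst (MvPowerSeries.C ((X : k⟦X⟧) ^ M) * cst η : PowerSeries k⟦X⟧) :=
    hs_zero (by
      change constantCoeff (PowerSeries.C ((X : k⟦X⟧) ^ M) * cst η) = 0
      rw [map_mul, hcst0, mul_zero])
  let y : F.Point Unit := ⟨MvPowerSeries.C ((X : k⟦X⟧) ^ M) * cst η, hs⟩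
  have E12 := D_lead F (f := y) (g := cst η) (M := M + 1) (by omega) le_rfl rfl
  have E13 : MvPowerSeries.C (X : k⟦X⟧) ∣ d' - del F (cst η) := by
    rw [CX_dvd_iff, map_sub, map_del, map_cst, hη, sub_self]
  have E14 : MvPowerSeries.C ((X : k⟦X⟧) ^ (M + 1)) ∣ (D F f).val - (D F y).val := by
    have h1 : (D F f).val - (D F y).val = MvPowerSeries.C (X ^ M) * (d' - del F (cst η)) -
        ((D F y).val - MvPowerSeries.C (X ^ M) * del F (cst η)) := by
      rw [hd']; ring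
    rw [h1]
    refine dvd_sub ?_ E12
    rw [CX_pow_mul, pow_one]
    exact mul_dvd_mul_left _ E13
  refine ⟨f - y, ?_, ?_⟩
  · rw [map_sub]
    exact dvd_sub_iff.2 E14
  · have h1 : f - y - f = -y := by abel
    rw [← dvd_sub_iff, h1]
    apply dvd_neg_val
    have h2 : (MvPowerSeries.C (X : k⟦X⟧) : MvPowerSeries Unit k⟦X⟧) ∣
        MvPowerSeries.C ((X : k⟦X⟧) ^ M) :=
      map_dvd _ (dvd_pow_self _ (by omega))
    exact h2.mul_right _

end kt

end Pool.Agent.H32.CG
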