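import Pool.Agent.H22.CG.Apx
import Pool.Agent.H22.CG.Fld
import Pool.Agent.H32.CG.Dvs

/-!
# Bridge: points and the subrings `EM F M`
-/

open PowerSeries

namespace Pool.Agent.H32.CG

open Pool.Agent.H13.CA Pool.Agent.H22.CG

variable {k : Type*} [Field k] (p : ℕ) [Fact p.Prime] [CharP k p] (F : FormalGroup k⟦X⟧)
  [F.IsComm] {h : ℕ}

theorem apx_iff_D (M : ℕ) (f : F.Point Unit) :
    Apx F M (f.val : PowerSeries k⟦X⟧) ↔ MvPowerSeries.C ((X : k⟦X⟧) ^ M) ∣ (D F f).val := by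
  rw [D_apply, sub_sub, dvd_sub_iff, C_dvd_iff]
  constructor
  · intro h
    exact h.2
  · intro h
    exact ⟨pt_cc F f, h⟩

theorem mem_EM_iff {M : ℕ} {θ : EndF (spc F)} : θ ∈ EM F M ↔ ∃ f : F.Point Unit,
    MvPowerSeries.C ((X : k⟦X⟧) ^ M) ∣ (D F f).val ∧
      PowerSeries.map (constantCoeff (R := k)) (f.val : PowerSeries k⟦X⟧) = θ.s := by
  constructor
  · rintro ⟨f, hf, hr⟩
    exact ⟨⟨f, hs_zero hf.1⟩, (apx_iff_D F M ⟨f, hs_zero hf.1⟩).1 hf, hr⟩
  · rintro ⟨f, hf, hr⟩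
    exact ⟨f.val, (apx_iff_D F M f).2 hf, hr⟩

/-- the reduction of `n f` -/
theorem red_nsmul (n : ℕ) (f : F.Point Unit) {θ : EndF (spc F)}
    (hf : PowerSeries.map (constantCoeff (R := k)) (f.val : PowerSeries k⟦X⟧) = θ.s) :
    PowerSeries.map (constantCoeff (R := k)) ((n • f).val : PowerSeries k⟦X⟧) =
      ((n : EndF (spc F)) * θ).s := by
  rw [nsmul_val, EndF.mul_s, EndF.natCast_s]
  have h1 := map_subst' (hs_zero (pt_cc F f)) (constantCoeff (R := k)) (mulSer F n)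
  rw [← mulSer_map, hf] at h1
  exact h1

theorem isHom_mulSer (n : ℕ) : IsHom F F (mulSer F n) := by
  have h1 := (n : EndF F).hom
  rwa [EndF.natCast_s] at h1

/-- `[p]_F = V (x ^ q)` -/
theorem factor (hlow : ∀ i, i < p ^ h → coeff i (mulSer F p) = 0) :
    ∃ V : PowerSeries k⟦X⟧, constantCoeff V = 0 ∧
      mulSer F p = PowerSeries.subst (X ^ p ^ h : PowerSeries k⟦X⟧) V := by
  have : CharP k⟦X⟧ p := charP_mv (σ := Unit) p
  obtain ⟨V, h0, -, hV⟩ := hom_expand_pow p (isHom_mulSer F p) h hlow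
  exact ⟨V, h0, hV⟩

omit [CharP k p] in
/-- the defect of `p f` -/
theorem D_low {V : PowerSeries k⟦X⟧} (hV : constantCoeff V = 0)
    (hFV : mulSer F p = PowerSeries.subst (X ^ p ^ h : PowerSeries k⟦X⟧) V) {M : ℕ}
    (f : F.Point Unit) (hf : MvPowerSeries.C ((X : k⟦X⟧) ^ M) ∣ (D F f).val) :
    MvPowerSeries.C ((X : k⟦X⟧) ^ (p ^ h * M)) ∣ (D F (p • f)).val := by
  obtain ⟨W, hW⟩ := PowerSeries.X_dvd_iff.2 hV
  have hq : p ^ h ≠ 0 := pow_ne_zero h (Fact.out : p.Prime).ne_zero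
  have hs : PowerSeries.HasSubst (X ^ p ^ h : PowerSeries k⟦X⟧) := PowerSeries.HasSubst.X_pow hq
  have hD : PowerSeries.HasSubst (D F f).val := (D F f).prop
  rw [map_nsmul, nsmul_val, hFV, hW, PowerSeries.subst_mul hs, PowerSeries.subst_X hs,
    PowerSeries.subst_mul hD, PowerSeries.subst_pow hD, PowerSeries.subst_X hD]
  refine Dvd.dvd.mul_right ?_ _
  rw [mul_comm, pow_mul, map_pow]
  exact pow_dvd_pow_of_dvd hf _

theorem low (hlow : ∀ i, i < p ^ h → coeff i (mulSer F p) = 0) {M : ℕ} {θ : EndF (spc F)}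
    (hθ : θ ∈ EM F M) : (p : EndF (spc F)) * θ ∈ EM F (p ^ h * M) := by
  obtain ⟨V, hV, hFV⟩ := factor p F hlow
  obtain ⟨f, hf, hr⟩ := (mem_EM_iff F).1 hθ
  exact (mem_EM_iff F).2 ⟨p • f, D_low p F hV hFV f hf, red_nsmul F p f hr⟩

theorem low_pow (hlow : ∀ i, i < p ^ h → coeff i (mulSer F p) = 0) {M : ℕ}
    {θ : EndF (spc F)} (hθ : θ ∈ EM F M) (u : ℕ) :
    (p : EndF (spc F)) ^ u * θ ∈ EM F ((p ^ h) ^ u * M) := by
  induction u with
  | zero => rw [pow_zero, one_mul, pow_zero, one_mul]; exact hθ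
  | succ u ih =>
    rw [pow_succ', mul_assoc, pow_succ', mul_assoc]
    exact low p F hlow ih

/-- DIVISION STEP -/
theorem div_em [PerfectField k] (hh : 1 ≤ h)
    (hlow : ∀ i, i < p ^ h → coeff i (mulSer F p) = 0) {e : ℕ}
    (he : (coeff (p ^ h) (mulSer F p)).order = e) (hsp : mulSer (spc F) p ≠ 0) {M N : ℕ}
    (hM : 2 * e + 1 ≤ M) (hN : p ^ h * M + e + e * (p ^ h) ^ 2 < N) {θ : EndF (spc F)}
    (h1 : θ ∈ EM F M) (h2 : (p : EndF (spc F)) * θ ∈ EM F N) : θ ∈ EM F (M + 1) := by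
  obtain ⟨V, hV, hFV⟩ := factor p F hlow
  have hq : p ^ h ≠ 0 := pow_ne_zero h (Fact.out : p.Prime).ne_zero
  have hperf : ∀ a : k, ∃ b, b ^ p = a := by
    have := ExpChar.prime (R := k) (Fact.out : p.Prime)
    intro a
    have h3 := (PerfectField.toPerfectRing p : PerfectRing k p).bijective_frobenius.2 a
    exact h3
  have hc : coeff (p ^ h) (mulSer F p) = coeff 1 V := by
    have h3 : mulSer F p = PowerSeries.expand (p ^ h) hq V := by
      rw [hFV, PowerSeries.expand_apply]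
    rw [h3]
    have := PowerSeries.coeff_expand_mul (p ^ h) hq V 1
    rwa [mul_one] at this
  rw [hc] at he
  have hv0 : coeff 1 V ≠ 0 := by
    intro h3
    rw [h3, PowerSeries.order_zero] at he
    exact absurd he (by simp)
  obtain ⟨n, u, hu, hfu, hfn⟩ := H85.CH.exists_unit_part hv0
  have hne : n = e := by
    rw [he] at hfn
    exact_mod_cast hfn.symm
  subst hne
  obtain ⟨f, hf, hr⟩ := (mem_EM_iff F).1 h1
  obtain ⟨g, hg, hgr⟩ := (mem_EM_iff F).1 h2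
  obtain ⟨f', hf', hr'⟩ := div_pt F p hperf hh hV hFV hfu hu hsp hM hN f g hf hg (by
    rw [CX_dvd_iff, map_sub, sub_eq_zero]
    exact (red_nsmul F p f hr).trans hgr.symm)
  refine (mem_EM_iff F).2 ⟨f', hf', ?_⟩
  rw [CX_dvd_iff, map_sub, sub_eq_zero] at hr'
  rw [← hr]
  exact hr'

end Pool.Agent.H32.CG
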