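import Pool.Agent.H32.CG.Lin

/-!
# Frobenius descent for additive defects

Chain rule for `pderiv` and substitution; over a perfect field of characteristic `p` a series `ε`
without linear term whose additive defect is a `p`-th power is a `p`-th power.
-/

open PowerSeries

namespace Pool.Agent.H32.CG

open Pool.Agent.H13.CA

variable {R : Type*} [CommRing R] {σ : Type*}

/-- chain rule -/
theorem pderiv_subst (i : σ) {a : MvPowerSeries σ R} (ha : MvPowerSeries.constantCoeff a = 0)
    (f : R⟦X⟧) : MvPowerSeries.pderiv R i (PowerSeries.subst a f) =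
      PowerSeries.subst a (PowerSeries.derivative R f) * MvPowerSeries.pderiv R i a := by
  have hs : PowerSeries.HasSubst a := PowerSeries.HasSubst.of_constantCoeff_zero ha
  rw [← sub_eq_zero]
  have key : ∀ n : ℕ, a ^ n ∣ MvPowerSeries.pderiv R i (PowerSeries.subst a f) -
      PowerSeries.subst a (PowerSeries.derivative R f) * MvPowerSeries.pderiv R i a := by
    intro n
    obtain ⟨g, hg⟩ : ∃ g : R⟦X⟧, f = X ^ (n + 1) * g + (trunc (n + 1) f : R⟦X⟧) :=
      ⟨_, PowerSeries.eq_X_pow_mul_shift_add_trunc (n + 1) f⟩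
    have h1 : MvPowerSeries.pderiv R i (PowerSeries.subst a ((trunc (n + 1) f : Polynomial R) : R⟦X⟧)) =
        PowerSeries.subst a (PowerSeries.derivative R ((trunc (n + 1) f : Polynomial R) : R⟦X⟧)) *
          MvPowerSeries.pderiv R i a := by
      rw [PowerSeries.subst_coe hs, PowerSeries.derivative_coe, PowerSeries.subst_coe hs,
        Derivation.comp_aeval_eq, smul_eq_mul]
    have h2 : MvPowerSeries.pderiv R i (PowerSeries.subst a f) -
      PowerSeries.subst a (PowerSeries.derivative R f) * MvPowerSeries.pderiv R i a =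
      MvPowerSeries.pderiv R i (PowerSeries.subst a (X ^ (n + 1) * g)) -
      PowerSeries.subst a (PowerSeries.derivative R (X ^ (n + 1) * g)) *
        MvPowerSeries.pderiv R i a := by
      conv_lhs => rw [hg]
      rw [PowerSeries.subst_add hs, map_add, map_add, PowerSeries.subst_add hs, h1]
      ring
    rw [h2, PowerSeries.subst_mul hs, PowerSeries.subst_pow hs, PowerSeries.subst_X hs]
    simp only [Derivation.leibniz, smul_eq_mul, PowerSeries.subst_add hs, PowerSeries.subst_mul hs,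
      MvPowerSeries.pderiv_pow, PowerSeries.derivative_pow, PowerSeries.subst_pow hs,
      PowerSeries.subst_X hs, Nat.add_sub_cancel]
    refine dvd_sub (Dvd.dvd.add ?_ ?_) ?_
    · rw [pow_succ]; exact ((dvd_mul_right _ _).mul_right _)
    · exact ((Dvd.intro_left _ rfl).mul_right _).mul_left _
    · refine Dvd.dvd.mul_right (Dvd.dvd.add ?_ ?_) _
      · rw [pow_succ]; exact ((dvd_mul_right _ _).mul_right _)
      · refine Dvd.dvd.mul_left ?_ _
        exact (Dvd.intro_left _ rfl).mul_right _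
  ext e
  obtain ⟨w, hw⟩ := key (Finsupp.degree e + 1)
  rw [hw, map_zero]
  apply MvPowerSeries.coeff_of_lt_order
  have h3 := MvPowerSeries.le_order_pow_of_constantCoeff_eq_zero (f := a) (Finsupp.degree e + 1) ha
  have h4 := MvPowerSeries.le_order_mul (f := a ^ (Finsupp.degree e + 1)) (g := w)
  refine lt_of_lt_of_le ?_ (h3.trans (le_self_add.trans h4))
  exact_mod_cast Nat.lt_succ_self _

private theorem hasX0 : MvPowerSeries.HasSubst ![(X : R⟦X⟧), 0] := MvPowerSeries.HasSubst.X_zero

theorem natCast_zero (p : ℕ) [CharP R p] : (p : MvPowerSeries σ R) = 0 := by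
  have := congrArg (MvPowerSeries.C (σ := σ) (R := R)) (CharP.cast_eq_zero R p)
  rw [map_natCast, map_zero] at this
  exact this

private theorem cc_pair (φ : MvPowerSeries (Fin 2) R) :
    constantCoeff (MvPowerSeries.subst ![(X : R⟦X⟧), 0] φ : R⟦X⟧) =
      MvPowerSeries.constantCoeff φ := by
  have h1 : φ = (φ - MvPowerSeries.C (MvPowerSeries.constantCoeff φ)) +
    MvPowerSeries.C (MvPowerSeries.constantCoeff φ) := by ring
  have h2 : MvPowerSeries.constantCoeff (MvPowerSeries.subst ![(X : R⟦X⟧), 0]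
      (φ - MvPowerSeries.C (MvPowerSeries.constantCoeff φ)) : R⟦X⟧) = 0 := by
    refine MvPowerSeries.constantCoeff_subst_eq_zero hasX0 ?_ (by simp)
    intro i
    fin_cases i
    · exact PowerSeries.constantCoeff_X
    · exact map_zero _
  have h3 : (MvPowerSeries.subst ![(X : R⟦X⟧), 0]
      (MvPowerSeries.C (MvPowerSeries.constantCoeff φ)) : R⟦X⟧) =
      MvPowerSeries.C (MvPowerSeries.constantCoeff φ) := MvPowerSeries.subst_C _
  have h4 : (MvPowerSeries.subst ![(X : R⟦X⟧), 0] φ : R⟦X⟧) = MvPowerSeries.subst ![(X : R⟦X⟧), 0]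
      (φ - MvPowerSeries.C (MvPowerSeries.constantCoeff φ)) +
        MvPowerSeries.C (MvPowerSeries.constantCoeff φ) := by
    conv_lhs => rw [h1]
    rw [MvPowerSeries.subst_add hasX0, h3]
  change MvPowerSeries.constantCoeff (MvPowerSeries.subst ![(X : R⟦X⟧), 0] φ : R⟦X⟧) = _
  rw [h4, map_add, h2, zero_add, MvPowerSeries.constantCoeff_C]

/-- a series without linear term whose additive defect is a `p`-th power is a `p`-th power -/
theorem frob_root [IsDomain R] (p : ℕ) [Fact p.Prime] [CharP R p]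
    (hperf : ∀ a : R, ∃ b, b ^ p = a) (G : FormalGroup R)
    (ε : R⟦X⟧) (h0 : constantCoeff ε = 0) (h1 : coeff 1 ε = 0) (w : MvPowerSeries (Fin 2) R)
    (h : del G ε = w ^ p) : ∃ η : R⟦X⟧, constantCoeff η = 0 ∧ ε = η ^ p := by
  have hp : p ≠ 0 := (Fact.out : p.Prime).ne_zero
  have e1 := congrArg (MvPowerSeries.pderiv R (1 : Fin 2)) h
  rw [MvPowerSeries.pderiv_pow, natCast_zero, zero_mul, zero_mul, del, map_sub, map_sub,
    pderiv_subst _ G.zero_constantCoeff, pderiv_subst _ (MvPowerSeries.constantCoeff_X 0),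
    pderiv_subst _ (MvPowerSeries.constantCoeff_X 1), MvPowerSeries.pderiv_X_self,
    MvPowerSeries.pderiv_X_of_ne (by decide), mul_zero, mul_one, sub_zero] at e1
  have e2 := congrArg (MvPowerSeries.subst ![(X : R⟦X⟧), 0]) e1
  have z : (MvPowerSeries.subst ![(X : R⟦X⟧), 0] (0 : MvPowerSeries (Fin 2) R) : R⟦X⟧) = 0 := by
    rw [← MvPowerSeries.coe_substAlgHom hasX0, map_zero]
  rw [MvPowerSeries.subst_sub hasX0, MvPowerSeries.subst_mul hasX0, z,
    mv_subst_subst (hs_F G) hasX0, mv_subst_subst (PowerSeries.HasSubst.X 1) hasX0,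
    MvPowerSeries.subst_X hasX0] at e2
  have e3 : (MvPowerSeries.subst ![(X : R⟦X⟧), 0] G.toPowerSeries : R⟦X⟧) = X := G.Xzero_eq_X
  have e4 : (PowerSeries.subst (![(X : R⟦X⟧), 0] 1 : R⟦X⟧) (PowerSeries.derivative R ε) : R⟦X⟧) =
      0 := by
    change (PowerSeries.subst (0 : R⟦X⟧) (PowerSeries.derivative R ε) : R⟦X⟧) = 0
    apply PowerSeries.subst_zero_of_constantCoeff_zero
    rw [← PowerSeries.coeff_zero_eq_constantCoeff_apply, PowerSeries.coeff_derivative, zero_add, h1,
      zero_mul]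
  have e5 : (PowerSeries.subst (X : R⟦X⟧) (PowerSeries.derivative R ε) : R⟦X⟧) =
    PowerSeries.derivative R ε := PowerSeries.X_subst _
  rw [e3, e4, e5, sub_zero] at e2
  have e6 : (MvPowerSeries.subst ![(X : R⟦X⟧), 0]
      (MvPowerSeries.pderiv R (1 : Fin 2) G.toPowerSeries) : R⟦X⟧) ≠ 0 := by
    intro h
    have := cc_pair (MvPowerSeries.pderiv R (1 : Fin 2) G.toPowerSeries)
    rw [h, map_zero, ← MvPowerSeries.coeff_zero_eq_constantCoeff_apply,
      MvPowerSeries.coeff_pderiv, zero_add, G.lin_coeff_Y] at this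
    simp at this
  have e7 : PowerSeries.derivative R ε = 0 := (mul_eq_zero.1 e2).resolve_right e6
  have e8 : ∀ m, ¬ p ∣ m → coeff m ε = 0 := by
    intro m hm
    obtain ⟨n, rfl⟩ : ∃ n, m = n + 1 := ⟨m - 1, by
      have : m ≠ 0 := fun h => hm (h ▸ dvd_zero p)
      omega⟩
    have h2 := congrArg (coeff n) e7
    rw [PowerSeries.coeff_derivative, map_zero] at h2
    refine (mul_eq_zero.1 h2).resolve_right ?_
    intro h3
    apply hm
    rw [← CharP.cast_eq_zero_iff R p]
    push_cast
    exact h3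
  choose r hr using hperf
  have hr0 : r 0 = 0 := by
    have := hr 0
    exact pow_eq_zero_iff hp |>.1 this
  refine ⟨PowerSeries.mk fun j => r (coeff (p * j) ε), ?_, ?_⟩
  · rw [← PowerSeries.coeff_zero_eq_constantCoeff_apply, PowerSeries.coeff_mk, mul_zero,
      PowerSeries.coeff_zero_eq_constantCoeff_apply, h0, hr0]
  · have h2 := MvPowerSeries.map_frobenius_expand (σ := Unit) (R := R) p hp
      (f := PowerSeries.mk fun j => r (coeff (p * j) ε))
    have h3 : (PowerSeries.map (frobenius R p) (PowerSeries.expand p hp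
      (PowerSeries.mk fun j => r (coeff (p * j) ε))) : R⟦X⟧) =
        (PowerSeries.mk fun j => r (coeff (p * j) ε)) ^ p := h2
    rw [← h3]
    ext n
    rw [PowerSeries.coeff_map, PowerSeries.coeff_expand]
    by_cases hn : p ∣ n
    · obtain ⟨m, rfl⟩ := hn
      rw [if_pos (dvd_mul_right _ _), Nat.mul_div_cancel_left _ (Nat.pos_of_ne_zero hp),
        PowerSeries.coeff_mk, frobenius_def, hr]
    · rw [if_neg hn, map_zero, e8 n hn]

theorem charP_mv (p : ℕ) [CharP R p] : CharP (MvPowerSeries σ R) p :=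
  charP_of_injective_ringHom (f := MvPowerSeries.C (σ := σ) (R := R)) (fun a b h => by
    have := congrArg (MvPowerSeries.coeff 0) h
    rwa [MvPowerSeries.coeff_zero_C, MvPowerSeries.coeff_zero_C] at this) p

theorem sub_pow_p (p : ℕ) [Fact p.Prime] [CharP R p] (a b : MvPowerSeries σ R) (n : ℕ) :
    (a - b) ^ p ^ n = a ^ p ^ n - b ^ p ^ n := by
  have := charP_mv (R := R) (σ := σ) p
  exact sub_pow_char_pow (p := p) a b n

theorem del_pow (p : ℕ) [Fact p.Prime] [CharP R p] (G : FormalGroup R) (η : R⟦X⟧) (n : ℕ) :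
    del G (η ^ p ^ n) = (del G η) ^ p ^ n := by
  rw [del, del, sub_pow_p, sub_pow_p, PowerSeries.subst_pow (hs_F G),
    PowerSeries.subst_pow (PowerSeries.HasSubst.X 0),
    PowerSeries.subst_pow (PowerSeries.HasSubst.X 1)]

theorem pow_p_inj [IsDomain R] (p : ℕ) [Fact p.Prime] [CharP R p] {a b : MvPowerSeries σ R}
    {n : ℕ} (h : a ^ p ^ n = b ^ p ^ n) : a = b := by
  rw [← sub_eq_zero, ← sub_pow_p] at h
  exact sub_eq_zero.1 (pow_eq_zero_iff (pow_ne_zero n (Fact.out : p.Prime).ne_zero) |>.1 h)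

/-- descent of `q`-th powers -/
theorem del_root [IsDomain R] (p : ℕ) [Fact p.Prime] [CharP R p]
    (hperf : ∀ a : R, ∃ b, b ^ p = a) (G : FormalGroup R) (n : ℕ) :
    ∀ (ε : R⟦X⟧) (w : MvPowerSeries (Fin 2) R), (∀ i, i < p ^ n → coeff i ε = 0) →
      del G ε = w ^ p ^ n → ∃ η : R⟦X⟧, constantCoeff η = 0 ∧ w = del G η := by
  have hp2 := (Fact.out : p.Prime).two_le
  induction n with
  | zero =>
    intro ε w h0 h
    rw [pow_zero, pow_one] at h
    refine ⟨ε, ?_, h.symm⟩
    rw [← PowerSeries.coeff_zero_eq_constantCoeff_apply]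
    exact h0 0 (by simp)
  | succ n ih =>
    intro ε w h0 h
    have hpn : 1 ≤ p ^ n := Nat.one_le_pow _ _ (by omega)
    have hpn1 : 2 ≤ p ^ (n + 1) := by
      rw [pow_succ]; nlinarith
    obtain ⟨η, hη0, hη⟩ := frob_root p hperf G ε
      (by rw [← PowerSeries.coeff_zero_eq_constantCoeff_apply]; exact h0 0 (by omega))
      (h0 1 (by omega)) (w ^ p ^ n) (by rw [h, ← pow_mul, ← pow_succ])
    have h1 : del G η = w ^ p ^ n := by
      have h2 := del_pow p G η 1
      rw [pow_one, ← hη, h, pow_succ, pow_mul] at h2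
      have h3 : (w ^ p ^ n) ^ p ^ 1 = (del G η) ^ p ^ 1 := by rw [pow_one]; exact h2
      exact (pow_p_inj p h3).symm
    refine ih η w ?_ h1
    intro i hi
    have h4 := MvPowerSeries.map_frobenius_expand (σ := Unit) (R := R) p (by omega) (f := η)
    have h5 : (PowerSeries.map (frobenius R p) (PowerSeries.expand p (by omega) η) : R⟦X⟧) =
      η ^ p := h4
    have h6 := congrArg (coeff (p * i)) h5
    rw [PowerSeries.coeff_map, PowerSeries.coeff_expand_mul, ← hη, h0 (p * i) (by
      rw [pow_succ, mul_comm]; exact Nat.mul_lt_mul_of_pos_right hi (by omega))] at h6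
    exact (pow_eq_zero_iff (by omega : p ≠ 0)).1 h6

/-- the form used in the division step -/
theorem del_root' [IsDomain R] (p : ℕ) [Fact p.Prime] [CharP R p]
    (hperf : ∀ a : R, ∃ b, b ^ p = a) (G : FormalGroup R) (n : ℕ)
    (ε : R⟦X⟧) (w : MvPowerSeries (Fin 2) R) (c : R) (hc : IsUnit c)
    (h0 : ∀ i, i < p ^ n → coeff i ε = 0)
    (h : del G ε = MvPowerSeries.C c * w ^ p ^ n) :
    ∃ η : R⟦X⟧, constantCoeff η = 0 ∧ w = del G η := by
  obtain ⟨b, hb⟩ : ∃ b : R, b ^ p ^ n = c := by
    clear h h0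
    induction n generalizing c with
    | zero => exact ⟨c, by simp⟩
    | succ n ih =>
      obtain ⟨d, hd⟩ := hperf c
      have hdu : IsUnit d := by
        rw [← hd, isUnit_pow_iff (Fact.out : p.Prime).ne_zero] at hc; exact hc
      obtain ⟨b, hb⟩ := ih d hdu
      exact ⟨b, by rw [pow_succ, pow_mul, hb, hd]⟩
  have hbu : IsUnit b := by
    rw [← hb, isUnit_pow_iff (pow_ne_zero n (Fact.out : p.Prime).ne_zero)] at hc; exact hc
  obtain ⟨b', hb'⟩ := hbu.exists_left_inv
  obtain ⟨η, hη0, hη⟩ := del_root p hperf G n ε (MvPowerSeries.C b * w) h0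
    (by rw [h, mul_pow, ← map_pow, hb])
  refine ⟨MvPowerSeries.C b' * η, ?_, ?_⟩
  · change constantCoeff (PowerSeries.C b' * η) = 0
    rw [map_mul, hη0, mul_zero]
  · have h1 : del G (MvPowerSeries.C b' * η) = MvPowerSeries.C b' * del G η := by
      rw [del, del, subst_C_mul' (hs_F G), subst_C_mul' (PowerSeries.HasSubst.X 0),
        subst_C_mul' (PowerSeries.HasSubst.X 1)]
      ring
    rw [h1, ← hη, ← mul_assoc, ← map_mul, hb', map_one, one_mul]

end Pool.Agent.H32.CG
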