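import Pool.Agent.H32.CG.Pt
import Pool.Agent.H85.CH.Ord

/-!
# First order analysis of points of a formal group law

`u ∣ (a - b).val ↔ u ∣ a.val - b.val`; sums and defects of small points; uniqueness (U).
-/

open PowerSeries

namespace Pool.Agent.H32.CG

open Pool.Agent.H13.CA

variable {R : Type*} [CommRing R] {σ τ : Type*}

section gen

variable (F : FormalGroup R) [F.IsComm]

omit [F.IsComm] in
theorem add_val' (a b : F.Point σ) : ∃ w : MvPowerSeries σ R,
    (a + b).val = a.val + b.val + a.val * b.val * w := by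
  obtain ⟨W, hW⟩ := add_val F (σ := σ)
  exact ⟨_, hW a.val b.val a.prop b.prop⟩

variable {F}

omit [F.IsComm] in
theorem dvd_add {u : MvPowerSeries σ R} {a b : F.Point σ} (ha : u ∣ a.val) (hb : u ∣ b.val) :
    u ∣ (a + b).val := by
  obtain ⟨w, hw⟩ := add_val' F a b
  rw [hw]
  exact Dvd.dvd.add (Dvd.dvd.add ha hb) ((ha.mul_right _).mul_right _)

omit [F.IsComm] in
theorem dvd_add_sub {u u' : MvPowerSeries σ R} {a b : F.Point σ} (ha : u ∣ a.val)
    (hb : u' ∣ b.val) : u * u' ∣ (a + b).val - (a.val + b.val) := by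
  obtain ⟨w, hw⟩ := add_val' F a b
  rw [hw, add_sub_cancel_left]
  exact (mul_dvd_mul ha hb).mul_right _

theorem dvd_neg_val {u : MvPowerSeries σ R} {a : F.Point σ} (ha : u ∣ a.val) :
    u ∣ (-a).val := by
  obtain ⟨w, hw⟩ := add_val' F a (-a)
  rw [add_neg_cancel] at hw
  have h1 : (-a).val = a.val * (- 1 - (-a).val * w) := by
    have h2 : (0 : MvPowerSeries σ R) = a.val + (-a).val + a.val * (-a).val * w := hw
    linear_combination -h2
  rw [h1]
  exact ha.mul_right _

theorem dvd_neg_add {u : MvPowerSeries σ R} {a : F.Point σ} (ha : u ∣ a.val) :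
    u * u ∣ (-a).val + a.val := by
  obtain ⟨w, hw⟩ := add_val' F a (-a)
  rw [add_neg_cancel] at hw
  have h1 : (-a).val + a.val = - (a.val * (-a).val * w) := by
    have h2 : (0 : MvPowerSeries σ R) = a.val + (-a).val + a.val * (-a).val * w := hw
    linear_combination -h2
  rw [h1]
  exact ((mul_dvd_mul ha (dvd_neg_val ha)).mul_right _).neg_right

theorem dvd_sub_val {u : MvPowerSeries σ R} {a b : F.Point σ} (ha : u ∣ a.val) (hb : u ∣ b.val) :
    u ∣ (a - b).val := by
  rw [sub_eq_add_neg]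
  exact dvd_add ha (dvd_neg_val hb)

theorem dvd_sub_iff {u : MvPowerSeries σ R} {a b : F.Point σ} :
    u ∣ (a - b).val ↔ u ∣ a.val - b.val := by
  obtain ⟨w, hw⟩ := add_val' F (a - b) b
  rw [sub_add_cancel] at hw
  have h1 : a.val - b.val = (a - b).val * (1 + b.val * w) := by
    rw [hw]; ring
  have hb : IsNilpotent (MvPowerSeries.constantCoeff b.val) := b.prop
  have hu : IsUnit (1 + b.val * w) := by
    rw [MvPowerSeries.isUnit_iff_constantCoeff, map_add, map_one, map_mul]
    exact IsNilpotent.isUnit_one_add (Commute.isNilpotent_mul_right (Commute.all _ _) hb)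
  rw [h1, hu.dvd_mul_right]

/-- divisibility by a constant, coefficientwise -/
theorem C_dvd_iff {r : R} {s : MvPowerSeries σ R} :
    MvPowerSeries.C r ∣ s ↔ ∀ e, r ∣ MvPowerSeries.coeff e s := by
  constructor
  · rintro ⟨w, rfl⟩ e
    rw [MvPowerSeries.coeff_C_mul]
    exact ⟨_, rfl⟩
  · intro h
    choose w hw using h
    refine ⟨w, ?_⟩
    ext e
    rw [MvPowerSeries.coeff_C_mul]
    exact hw e

/-- divisibility by a constant, coefficientwise, one variable -/
theorem C_dvd_iff' {r : R} {s : R⟦X⟧} :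
    (MvPowerSeries.C r : MvPowerSeries Unit R) ∣ s ↔ ∀ i, r ∣ PowerSeries.coeff i s := by
  rw [C_dvd_iff]
  constructor
  · intro h i
    exact h _
  · intro h e
    have : e = Finsupp.single () (e ()) := by
      ext; simp
    rw [this]
    exact h _

theorem subst_C_mul' {c : MvPowerSeries τ R} (hc : PowerSeries.HasSubst c) (r : R) (f : R⟦X⟧) :
    PowerSeries.subst c (MvPowerSeries.C r * f : R⟦X⟧) =
      MvPowerSeries.C r * PowerSeries.subst c f := by
  have h1 : (MvPowerSeries.C r * f : R⟦X⟧) = r • f := by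
    rw [MvPowerSeries.smul_eq_C_mul]
  rw [h1, PowerSeries.subst_smul hc, MvPowerSeries.smul_eq_C_mul]

theorem dvd_ev {r : R} {f : F.Point Unit} (h : MvPowerSeries.C r ∣ f.val)
    {c : MvPowerSeries τ R} (hc : PowerSeries.HasSubst c) :
    MvPowerSeries.C r ∣ (ev F c hc f).val := by
  obtain ⟨w, hw⟩ := h
  rw [ev_val]
  have h1 : (f.val : R⟦X⟧) = MvPowerSeries.C r * w := hw
  rw [h1, subst_C_mul' hc]
  exact Dvd.intro _ rfl

/-- the additive defect -/
noncomputable def del (F : FormalGroup R) (g : R⟦X⟧) : MvPowerSeries (Fin 2) R :=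
  PowerSeries.subst F.toPowerSeries g -
    PowerSeries.subst (MvPowerSeries.X 0 : MvPowerSeries (Fin 2) R) g -
    PowerSeries.subst (MvPowerSeries.X 1 : MvPowerSeries (Fin 2) R) g

/-- the defect of a small point to first order -/
theorem D_first {r : R} {f : F.Point Unit} {g : R⟦X⟧}
    (h : (f.val : R⟦X⟧) = MvPowerSeries.C r * g) :
    (MvPowerSeries.C r * MvPowerSeries.C r : MvPowerSeries (Fin 2) R) ∣
      (D F f).val - MvPowerSeries.C r * del F g := by
  have hd : MvPowerSeries.C r ∣ f.val := ⟨g, h⟩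
  set a := ev F F.toPowerSeries (hs_F F) f with ha
  set b := ev F (MvPowerSeries.X 0 : MvPowerSeries (Fin 2) R) (PowerSeries.HasSubst.X 0) f with hb
  set c := ev F (MvPowerSeries.X 1 : MvPowerSeries (Fin 2) R) (PowerSeries.HasSubst.X 1) f with hc
  have da : MvPowerSeries.C r ∣ a.val := dvd_ev hd _
  have db : MvPowerSeries.C r ∣ b.val := dvd_ev hd _
  have dc : MvPowerSeries.C r ∣ c.val := dvd_ev hd _
  have va : a.val = MvPowerSeries.C r * PowerSeries.subst F.toPowerSeries g := by
    rw [ha, ev_val, h, subst_C_mul' (hs_F F)]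
  have vb : b.val = MvPowerSeries.C r * PowerSeries.subst (MvPowerSeries.X 0) g := by
    rw [hb, ev_val, h, subst_C_mul' (PowerSeries.HasSubst.X 0)]
  have vc : c.val = MvPowerSeries.C r * PowerSeries.subst (MvPowerSeries.X 1) g := by
    rw [hc, ev_val, h, subst_C_mul' (PowerSeries.HasSubst.X 1)]
  have h1 : (D F f).val = (a + (-b + -c)).val := by
    rw [D_apply, ← ha, ← hb, ← hc]
    congr 1
    abel
  have e1 := dvd_add_sub (F := F) da (dvd_add (dvd_neg_val db) (dvd_neg_val dc))
  have e2 := dvd_add_sub (F := F) (dvd_neg_val db) (dvd_neg_val dc)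
  have e3 := dvd_neg_add (F := F) db
  have e4 := dvd_neg_add (F := F) dc
  rw [h1]
  have e5 : (a + (-b + -c)).val - MvPowerSeries.C r * del F g =
      ((a + (-b + -c)).val - (a.val + (-b + -c).val)) +
      ((-b + -c).val - ((-b).val + (-c).val)) + ((-b).val + b.val) + ((-c).val + c.val) := by
    rw [va, vb, vc, del]; ring
  rw [e5]
  exact Dvd.dvd.add (Dvd.dvd.add (Dvd.dvd.add e1 e2) e3) e4

end gen

/-! ### homomorphisms to the additive group are zero -/

section log

theorem mulSer_Ga (n : ℕ) : mulSer (FormalGroup.𝔾ₐ (R := R)) n = (n : R⟦X⟧) * X := by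
  induction n with
  | zero => simp [mulSer]
  | succ n ih =>
    change MvPowerSeries.subst ![mulSer (FormalGroup.𝔾ₐ (R := R)) n, (X : R⟦X⟧)]
      (MvPowerSeries.X 0 + MvPowerSeries.X 1) = _
    have hs := hasSubst_pair (hs_zero (cc_mulSer (FormalGroup.𝔾ₐ (R := R)) n))
      PowerSeries.HasSubst.X'
    rw [MvPowerSeries.subst_add hs, MvPowerSeries.subst_X hs, MvPowerSeries.subst_X hs]
    change mulSer (FormalGroup.𝔾ₐ (R := R)) n + X = _
    rw [ih]; push_cast; ring

/-- an additive series on a formal group law with `[p] ≠ 0` over a domain of characteristic `p`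
is zero -/
theorem log_zero [IsDomain R] (p : ℕ) [CharP R p] (G : FormalGroup R)
    (hG : mulSer G p ≠ 0) (g : R⟦X⟧) (h : del G g = 0) : g = 0 := by
  have h0 : constantCoeff g = 0 := by
    have h1 := congrArg MvPowerSeries.constantCoeff h
    rw [del, map_sub, map_sub, map_zero] at h1
    have key : ∀ (c : MvPowerSeries (Fin 2) R), MvPowerSeries.constantCoeff c = 0 →
        MvPowerSeries.constantCoeff (PowerSeries.subst c g) = constantCoeff g := by
      intro c hc
      have hs : PowerSeries.HasSubst c := PowerSeries.HasSubst.of_constantCoeff_zero hc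
      have h1 : g = (g - C (constantCoeff g)) + C (constantCoeff g) := by ring
      have h2 : MvPowerSeries.constantCoeff (PowerSeries.subst c (g - C (constantCoeff g))) = 0 :=
        PowerSeries.constantCoeff_subst_eq_zero hc _ (by simp)
      have h3 : (PowerSeries.subst c (C (constantCoeff g)) : MvPowerSeries (Fin 2) R) =
          MvPowerSeries.C (constantCoeff g) := by
        rw [← PowerSeries.coe_substAlgHom hs]
        exact (PowerSeries.substAlgHom hs).commutes (constantCoeff g)
      conv_lhs => rw [h1]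
      rw [PowerSeries.subst_add hs, map_add, h2, h3, zero_add, MvPowerSeries.constantCoeff_C]
    rw [key _ G.zero_constantCoeff, key _ (MvPowerSeries.constantCoeff_X 0),
      key _ (MvPowerSeries.constantCoeff_X 1)] at h1
    linear_combination -h1
  have hh : IsHom G FormalGroup.𝔾ₐ g := by
    refine ⟨h0, ?_⟩
    have hs := hasSubst_pair (hs_subst (PowerSeries.HasSubst.X (S := R) (0 : Fin 2)) h0)
      (hs_subst (PowerSeries.HasSubst.X (S := R) (1 : Fin 2)) h0)
    change _ = MvPowerSeries.subst _ (MvPowerSeries.X 0 + MvPowerSeries.X 1)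
    rw [MvPowerSeries.subst_add hs, MvPowerSeries.subst_X hs, MvPowerSeries.subst_X hs]
    change _ = PowerSeries.subst (MvPowerSeries.X 0) g + PowerSeries.subst (MvPowerSeries.X 1) g
    rw [del, sub_sub, sub_eq_zero] at h
    exact h
  have h1 := hh.mulSer p
  rw [mulSer_Ga] at h1
  have hp : ((p : R⟦X⟧)) = 0 := by
    have := congrArg (C (R := R)) (CharP.cast_eq_zero R p)
    rw [map_natCast, map_zero] at this
    exact this
  rw [hp, zero_mul] at h1
  have h2 : PowerSeries.subst g (0 : R⟦X⟧) = (0 : R⟦X⟧) := by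
    rw [← PowerSeries.coe_substAlgHom (hs_zero h0), map_zero]
  rw [h2] at h1
  have h3 := H85.CH.order_subst g (mulSer G p) (cc_mulSer G p)
  rw [h1, PowerSeries.order_zero] at h3
  by_contra hg
  have h4 : g.order ≠ ⊤ := fun e => hg (PowerSeries.order_eq_top.1 e)
  have h5 : (mulSer G p).order ≠ ⊤ := fun e => hG (PowerSeries.order_eq_top.1 e)
  exact (WithTop.mul_ne_top h4 h5) h3.symm

end log

/-! ### over `k⟦t⟧` -/

section kt

variable {k : Type*} [Field k]

theorem map_del (F : FormalGroup R) {S : Type*} [CommRing S] (φ : R →+* S) (g : R⟦X⟧) :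
    MvPowerSeries.map φ (del F g) = del (F.map φ) (PowerSeries.map φ g) := by
  rw [del, del, map_sub, map_sub, PowerSeries.map_subst (hs_F F),
    PowerSeries.map_subst (PowerSeries.HasSubst.X 0),
    PowerSeries.map_subst (PowerSeries.HasSubst.X 1), MvPowerSeries.map_X, MvPowerSeries.map_X]
  rfl

theorem CX_dvd_iff {s : MvPowerSeries σ k⟦X⟧} :
    MvPowerSeries.C (X : k⟦X⟧) ∣ s ↔ MvPowerSeries.map (constantCoeff (R := k)) s = 0 := by
  rw [C_dvd_iff]
  constructor
  · intro h
    ext e
    rw [MvPowerSeries.coeff_map, map_zero, ← PowerSeries.X_dvd_iff]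
    exact h e
  · intro h e
    rw [PowerSeries.X_dvd_iff, ← MvPowerSeries.coeff_map, h, map_zero]

theorem CX_pow_ne (M : ℕ) : (MvPowerSeries.C ((X : k⟦X⟧) ^ M) : MvPowerSeries σ k⟦X⟧) ≠ 0 := by
  intro h
  have h1 := congrArg (MvPowerSeries.coeff 0) h
  rw [MvPowerSeries.coeff_zero_C, map_zero] at h1
  exact pow_ne_zero _ PowerSeries.X_ne_zero h1

theorem CX_pow_mul (M N : ℕ) : (MvPowerSeries.C ((X : k⟦X⟧) ^ (M + N)) : MvPowerSeries σ k⟦X⟧) =
    MvPowerSeries.C (X ^ M) * MvPowerSeries.C (X ^ N) := by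
  rw [pow_add, map_mul]

theorem CX_pow_dvd {M N : ℕ} (h : M ≤ N) : (MvPowerSeries.C ((X : k⟦X⟧) ^ M) :
    MvPowerSeries σ k⟦X⟧) ∣ MvPowerSeries.C (X ^ N) :=
  map_dvd _ (pow_dvd_pow _ h)

variable (F : FormalGroup k⟦X⟧) [F.IsComm]

/-- one step: the leading coefficient of the defect of a small point -/
theorem D_lead {L M : ℕ} (hL : 1 ≤ L) (hM : M ≤ L + 1) {f : F.Point Unit} {g : PowerSeries k⟦X⟧}
    (h : (f.val : PowerSeries k⟦X⟧) = MvPowerSeries.C ((X : k⟦X⟧) ^ L) * g) :
    (MvPowerSeries.C ((X : k⟦X⟧) ^ M)) ∣ (D F f).val - MvPowerSeries.C (X ^ L) * del F g := by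
  have h1 := D_first (F := F) h
  refine dvd_trans ?_ h1
  rw [← CX_pow_mul]
  exact CX_pow_dvd (by omega)

/-- (U): uniqueness of approximate homomorphisms with given reduction -/
theorem uniq (p : ℕ) [CharP k p] (hsp : mulSer (F.map (constantCoeff (R := k))) p ≠ 0)
    (f : F.Point Unit) (h1 : MvPowerSeries.C (X : k⟦X⟧) ∣ f.val) (N : ℕ)
    (hN : MvPowerSeries.C ((X : k⟦X⟧) ^ N) ∣ (D F f).val) :
    MvPowerSeries.C ((X : k⟦X⟧) ^ N) ∣ f.val := by
  have key : ∀ L, 1 ≤ L → L ≤ N → MvPowerSeries.C ((X : k⟦X⟧) ^ L) ∣ f.val := by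
    intro L hL
    induction L, hL using Nat.le_induction with
    | base => intro _; rw [pow_one]; exact h1
    | succ L hL ih =>
      intro hLN
      obtain ⟨g, hg⟩ := ih (by omega)
      have h2 := D_lead F (M := L + 1) hL le_rfl hg
      have h3 := (CX_pow_dvd (k := k) (σ := Fin 2) hLN).trans hN
      have h4 := dvd_sub h3 h2
      rw [sub_sub_cancel, CX_pow_mul, pow_one] at h4
      have h5 := (mul_dvd_mul_iff_left (CX_pow_ne L)).1 h4
      rw [CX_dvd_iff, map_del] at h5
      have h6 := log_zero p _ hsp _ h5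
      have h7 : MvPowerSeries.C (X : k⟦X⟧) ∣ (g : MvPowerSeries Unit k⟦X⟧) := by
        rw [CX_dvd_iff]; exact h6
      rw [hg, CX_pow_mul, pow_one]
      exact mul_dvd_mul_left _ h7
  rcases Nat.eq_zero_or_pos N with rfl | hN0
  · rw [pow_zero, map_one]; exact one_dvd _
  · exact key N hN0 le_rfl

end kt

end Pool.Agent.H32.CG
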